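/-
TGX B.AltGen. A permutation group of degree `n` containing the alternating group is generated by at
most 4 elements.
PROOF. The index of `G` divides 2 (`alternatingGroup` has index at most 2). The symmetric group is
generated by 2 elements: finRotate and a swap of adjacent points
(`Equiv.Perm.closure_cycle_adjacent_swap`). A subgroup of index at most 2 of a
2-generated group is generated by at most 2*2 = 4 elements by Schreier's lemma
(`Subgroup.exists_finset_card_le_mul`).
-/
import Pool.Agent.Lib.TGX.Defs

namespace Pool.Agent.Lib.TGX

open Equiv

theorem gen_of_alternating_le {n : ℕ} (G : Subgroup (Perm (Fin n)))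
    (h : alternatingGroup (Fin n) ≤ G) : Gen ⊥ G 4 := by
  classical
  rcases Nat.lt_or_ge n 2 with hn | hn
  · have hs : Subsingleton (Fin n) := by
      interval_cases n
      · infer_instance
      · infer_instance
    refine ⟨∅, by simp, ?_⟩
    have h0 : G = ⊥ := by
      rw [Subgroup.eq_bot_iff_forall]
      intro x _
      ext i
      exact congrArg _ (Subsingleton.elim _ _)
    simp [h0]
  · obtain ⟨m, rfl⟩ : ∃ m, n = m + 2 := ⟨n - 2, by omega⟩
    have hS : Subgroup.closure
        ((({finRotate (m + 2), swap 0 (finRotate (m + 2) 0)} : Finset (Perm (Fin (m + 2)))) :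
          Finset (Perm (Fin (m + 2)))) : Set (Perm (Fin (m + 2)))) = ⊤ := by
      have := Equiv.Perm.closure_cycle_adjacent_swap (σ := finRotate (m + 2))
        isCycle_finRotate support_finRotate 0
      simpa using this
    obtain ⟨T, hT, hTc⟩ := Subgroup.exists_finset_card_le_mul (H := G) hS
    have hidx : G.index ≤ 2 := by
      have hd : G.index ∣ (alternatingGroup (Fin (m + 2))).index := Subgroup.index_dvd_of_le h
      rw [alternatingGroup.index_eq_two] at hd
      exact Nat.le_of_dvd (by norm_num) hd
    refine ⟨T.image (fun x : G => (x : Perm (Fin (m + 2)))), ?_, ?_⟩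
    · have h2 : ({finRotate (m + 2), swap 0 (finRotate (m + 2) 0)} :
          Finset (Perm (Fin (m + 2)))).card ≤ 2 := Finset.card_le_two
      calc (T.image (fun x : G => (x : Perm (Fin (m + 2))))).card ≤ T.card := Finset.card_image_le
        _ ≤ G.index * _ := hT
        _ ≤ 2 * 2 := Nat.mul_le_mul hidx h2
        _ = 4 := by norm_num
    · rw [bot_sup_eq, Finset.coe_image]
      have := congrArg (Subgroup.map G.subtype) hTc
      rw [MonoidHom.map_closure] at this
      rw [← MonoidHom.range_eq_map, Subgroup.range_subtype] at this
      exact this

end Pool.Agent.Lib.TGX
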