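/-
TGX B.BaseCard. If the pointwise stabiliser in `G` of the finite set `s` is trivial, then
`|G| ≤ n ^ |s|`.
PROOF. The map `g ↦ (x ↦ g x) : G → (s → α)` is injective: if `g x = h x` for all `x` in `s`, then
`g⁻¹ h` fixes `s` pointwise, so `g = h`.
-/
import Pool.Agent.Lib.TGX.Defs

namespace Pool.Agent.Lib.TGX

open Equiv

theorem card_le_of_base {α : Type} [Fintype α] (G : Subgroup (Perm α)) (s : Finset α)
    (hs : ∀ g ∈ G, (∀ x ∈ s, g x = x) → g = 1) : Nat.card G ≤ Fintype.card α ^ s.card := by
  classical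
  have hinj : Function.Injective (fun (g : G) (x : s) => (g : Perm α) (x : α)) := by
    intro g h hgh
    have h1 : (g : Perm α)⁻¹ * (h : Perm α) = 1 := by
      refine hs _ (G.mul_mem (G.inv_mem g.2) h.2) fun x hx => ?_
      have h2 := congrFun hgh ⟨x, hx⟩
      simp only at h2
      rw [Perm.mul_apply, ← h2, Perm.inv_def, Equiv.symm_apply_apply]
    exact Subtype.ext (inv_mul_eq_one.1 h1)
  have h3 := Nat.card_le_card_of_injective _ hinj
  rw [Nat.card_eq_fintype_card (α := s → α), Fintype.card_fun, Fintype.card_coe] at h3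
  exact h3

end Pool.Agent.Lib.TGX
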