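/-
TGX B.Comm. Commutators of permutations whose supports have a small intersection.
PROOFS. `⁅g,h⁆ = g * h * g⁻¹ * h⁻¹`, `I = supp g ∩ supp h`.
(commutator_supp) if `⁅g,h⁆ x ≠ x` then `x ∈ I ∪ g(I) ∪ h(I)`: suppose `x` is in none of these.
If `h⁻¹ x = x`: `⁅g,h⁆ x = g h g⁻¹ x`; let `w = g⁻¹ x`; if `w = x`, result `g h x = g x = x`. If
`w ≠ x` then `w ∈ supp g`, and `w ∉ I` (as `x = g w ∉ g(I)`), so `h w = w` and `g w = x`. If
`h⁻¹ x ≠ x`: `x ∈ supp h`, so `g x = x` (as `x ∉ I`), `w = h⁻¹ x ∈ supp h`, `w ∉ I` as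
`x = h w ∉ h(I)`, so `g w = w`, `g⁻¹ w = w`, `⁅g,h⁆ x = g h w = g x = x`.
(commutator_three) `I = {p}`: then `g p ≠ p`, `h p ≠ p`, `g p ∉ supp h` (else `g p ∈ I`, `g p = p`),
`h p ∉ supp g`, `g p ≠ h p` (else `g p ∈ supp g ∩ ...`: `h p ∈ supp h`, so `g p ∈ I`). The support
of the commutator is contained in `{p, g p, h p}` by the previous lemma, and the commutator is not
1, so it is a permutation of three points; compute `⁅g,h⁆ (h p) = g h g⁻¹ p`,
`g⁻¹ p ≠ p` and `g⁻¹ p ∉ supp h`, so `= g g⁻¹ p = p`; `⁅g,h⁆ p = g h g⁻¹ h⁻¹ p`, `h⁻¹ p ∉ supp g`, so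
`= g h h⁻¹ p = g p`; so it is the 3-cycle `h p ↦ p ↦ g p ↦ h p`
(`Equiv.Perm.card_support_eq_three_iff`).
(commutator_ne_one) `g (h p) = h p`, `h (g p) ≠ h p`.
-/
import Pool.Agent.Lib.TGX.Defs

namespace Pool.Agent.Lib.TGX

open Equiv

variable {α : Type} [Fintype α] [DecidableEq α]

private theorem Comm_ai (f : Perm α) (x : α) : f (f⁻¹ x) = x := Equiv.apply_symm_apply f x

private theorem Comm_ia (f : Perm α) (x : α) : f⁻¹ (f x) = x := Equiv.symm_apply_apply f x

private theorem Comm_sub (g h : Perm α) : (g * h * g⁻¹ * h⁻¹).support ⊆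
    (g.support ∩ h.support) ∪ ((g.support ∩ h.support).image g ∪
      (g.support ∩ h.support).image h) := by
  intro x hx
  rw [Perm.mem_support, Perm.mul_apply, Perm.mul_apply, Perm.mul_apply] at hx
  by_contra hn
  simp only [Finset.mem_union, Finset.mem_image, Finset.mem_inter, Perm.mem_support, not_or,
    not_exists] at hn
  obtain ⟨hI, hg, hh⟩ := hn
  have eg : ∀ w : α, g w ≠ w → g w = x → h w = w := fun w h1 h2 => by
    by_contra h3
    exact hg w ⟨⟨h1, h3⟩, h2⟩
  have eh : ∀ w : α, h w ≠ w → h w = x → g w = w := fun w h1 h2 => by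
    by_contra h3
    exact hh w ⟨⟨h3, h1⟩, h2⟩
  apply hx
  by_cases h1 : h⁻¹ x = x
  · have h1' : h x = x := by
      have := congrArg h h1
      rw [Comm_ai] at this
      exact this.symm
    rw [h1]
    by_cases h2 : g⁻¹ x = x
    · have h2' : g x = x := by
        have := congrArg g h2
        rw [Comm_ai] at this
        exact this.symm
      rw [h2, h1', h2']
    · have h3 : g (g⁻¹ x) = x := Comm_ai g x
      have h4 : h (g⁻¹ x) = g⁻¹ x := eg (g⁻¹ x) (by rw [h3]; exact fun h => h2 h.symm) h3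
      rw [h4, h3]
  · have h3 : h (h⁻¹ x) = x := Comm_ai h x
    have h4 : g (h⁻¹ x) = h⁻¹ x := eh (h⁻¹ x) (by rw [h3]; exact fun h => h1 h.symm) h3
    have h5 : g⁻¹ (h⁻¹ x) = h⁻¹ x := by
      have := congrArg (fun y => g⁻¹ y) h4
      simp only [Comm_ia] at this
      exact this.symm
    rw [h5, h3]
    by_contra h6
    refine hI ⟨h6, fun h7 => h1 ?_⟩
    have := congrArg (fun y => h⁻¹ y) h7
    simp only [Comm_ia] at this
    exact this.symm

theorem commutator_supp (g h : Perm α) :
    (g * h * g⁻¹ * h⁻¹).support.card ≤ 3 * (g.support ∩ h.support).card := by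
  refine (Finset.card_le_card (Comm_sub g h)).trans ?_
  refine (Finset.card_union_le _ _).trans ?_
  have h1 := Finset.card_union_le ((g.support ∩ h.support).image g)
    ((g.support ∩ h.support).image h)
  have h2 : ((g.support ∩ h.support).image g).card ≤ (g.support ∩ h.support).card :=
    Finset.card_image_le
  have h3 : ((g.support ∩ h.support).image h).card ≤ (g.support ∩ h.support).card :=
    Finset.card_image_le
  omega

theorem commutator_three (g h : Perm α) (h1 : (g.support ∩ h.support).card = 1) :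
    (g * h * g⁻¹ * h⁻¹).IsThreeCycle := by
  obtain ⟨p, hp⟩ := Finset.card_eq_one.1 h1
  have hI : ∀ x : α, g x ≠ x → h x ≠ x → x = p := fun x hx hx' => by
    have : x ∈ g.support ∩ h.support :=
      Finset.mem_inter.2 ⟨Perm.mem_support.2 hx, Perm.mem_support.2 hx'⟩
    rw [hp, Finset.mem_singleton] at this
    exact this
  have hp' : p ∈ g.support ∩ h.support := by rw [hp]; exact Finset.mem_singleton_self p
  have hg : g p ≠ p := Perm.mem_support.1 (Finset.mem_inter.1 hp').1
  have hh : h p ≠ p := Perm.mem_support.1 (Finset.mem_inter.1 hp').2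
  have hgg : g (g p) ≠ g p := fun h => hg (g.injective h)
  have hhh : h (h p) ≠ h p := fun h' => hh (h.injective h')
  have hgh : g p ≠ h p := fun h2 => hh (hI (h p) (by rw [← h2]; exact hgg) hhh)
  -- the values
  have a1 : g (g⁻¹ p) = p := Comm_ai g p
  have a2 : h (h⁻¹ p) = p := Comm_ai h p
  have b1 : h (g⁻¹ p) = g⁻¹ p := by
    by_contra h3
    have h4 : g (g⁻¹ p) ≠ g⁻¹ p := by
      rw [a1]
      intro h5
      apply hg
      have := congrArg g h5
      rw [a1] at this
      exact this
    have h5 := hI _ h4 h3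
    rw [h5] at a1
    exact hg a1
  have b2 : g (h⁻¹ p) = h⁻¹ p := by
    by_contra h3
    have h4 : h (h⁻¹ p) ≠ h⁻¹ p := by
      rw [a2]
      intro h5
      apply hh
      have := congrArg h h5
      rw [a2] at this
      exact this
    have h5 := hI _ h3 h4
    rw [h5] at a2
    exact hh a2
  have b3 : g⁻¹ (h⁻¹ p) = h⁻¹ p := by
    have := congrArg (fun y => g⁻¹ y) b2
    simp only [Comm_ia] at this
    exact this.symm
  have c1 : (g * h * g⁻¹ * h⁻¹) (h p) = p := by
    rw [Perm.mul_apply, Perm.mul_apply, Perm.mul_apply, Comm_ia, b1, a1]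
  have c2 : (g * h * g⁻¹ * h⁻¹) p = g p := by
    rw [Perm.mul_apply, Perm.mul_apply, Perm.mul_apply, b3, a2]
  rw [← card_support_eq_three_iff]
  apply le_antisymm
  · have := commutator_supp g h
    omega
  · have hsub : ({p, g p, h p} : Finset α) ⊆ (g * h * g⁻¹ * h⁻¹).support := by
      have d1 : p ∈ (g * h * g⁻¹ * h⁻¹).support := by
        rw [Perm.mem_support, c2]
        exact hg
      have d2 : h p ∈ (g * h * g⁻¹ * h⁻¹).support := by
        rw [Perm.mem_support, c1]
        exact fun h => hh h.symm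
      have d3 : g p ∈ (g * h * g⁻¹ * h⁻¹).support := by
        rw [← c2]
        exact Perm.apply_mem_support.2 d1
      intro x hx
      simp only [Finset.mem_insert, Finset.mem_singleton] at hx
      rcases hx with rfl | rfl | rfl
      · exact d1
      · exact d3
      · exact d2
    have hcard : ({p, g p, h p} : Finset α).card = 3 :=
      Finset.card_eq_three.2 ⟨p, g p, h p, fun h => hg h.symm, fun h => hh h.symm, hgh, rfl⟩
    rw [← hcard]
    exact Finset.card_le_card hsub

theorem commutator_ne_one (g h : Perm α) {p : α} (hp : p ∈ g.support) (hp' : h p ∉ g.support) :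
    g * h * g⁻¹ * h⁻¹ ≠ 1 := by
  intro h1
  have h2 : g * h = h * g := by
    have h3 : g * h * g⁻¹ * h⁻¹ * (h * g) = g * h := by group
    rw [← h3, h1, one_mul]
  have h4 : g (h p) = h p := by
    by_contra h5
    exact hp' (Perm.mem_support.2 h5)
  have h5 : g (h p) = h (g p) := by
    rw [← Perm.mul_apply, h2, Perm.mul_apply]
  rw [h4] at h5
  exact (Perm.mem_support.1 hp) (h.injective h5).symm

end Pool.Agent.Lib.TGX
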