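/-
TGX B.CountT. Counting elements of doubly transitive groups; `n = |α|`.
PROOFS. (count_one) the `n` sets `{x ∈ G : x u = u'}`, `u' : α`, partition `G` and have the same
size (left multiplication by `h ∈ G` with `h u' = u''`).
(count_two) the same with the `n (n-1)` ordered pairs of distinct points.
(sum_inter) `|Γ ∩ xΓ| = #{δ ∈ Γ : x δ ∈ Γ}`; sum over `x` and exchange the sums.
(sum_inter_two) `|Γ ∩ xΓ| (|Γ ∩ xΓ| - 1)` = number of ordered pairs of distinct `δ, δ' ∈ Γ` with
`x δ, x δ' ∈ Γ`.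
(sum_out) `σ δ ≠ δ` for `δ ∈ Γ`: number of `(δ, x)` with `δ ∈ Γ`, `x δ ∈ Γ`, `x (σ δ) ∉ Γ`.
-/
import Pool.Agent.Lib.TGX.Defs

namespace Pool.Agent.Lib.TGX

open Equiv

variable {α : Type} [Fintype α] [DecidableEq α]

/-- fibres of the same size -/
private theorem ct_fib {G : Type} [Finite G] {β : Type} [Fintype β] (f : G → β) (b : β)
    (h : ∀ b' : β, Nat.card {x : G // f x = b'} = Nat.card {x : G // f x = b}) :
    Nat.card {x : G // f x = b} * Fintype.card β = Nat.card G := by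
  rw [← Nat.card_congr (Equiv.sigmaFiberEquiv f), Nat.card_sigma, Finset.sum_congr rfl
    (fun b' _ => h b'), Finset.sum_const, Finset.card_univ, smul_eq_mul, mul_comm]

theorem count_one (G : Subgroup (Perm α)) (hG : ∀ u v : α, ∃ g ∈ G, g u = v) (u u' : α) :
    Nat.card {x : G // (x : Perm α) u = u'} * Fintype.card α = Nat.card G := by
  refine ct_fib (fun x : G => (x : Perm α) u) u' ?_
  intro w
  obtain ⟨h, hh, hw⟩ := hG w u'
  refine Nat.card_congr ⟨fun x => ⟨⟨h, hh⟩ * x.1, ?_⟩, fun x => ⟨⟨h, hh⟩⁻¹ * x.1, ?_⟩, ?_, ?_⟩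
  · show h ((x.1 : Perm α) u) = u'
    rw [show (x.1 : Perm α) u = w from x.2, hw]
  · show h⁻¹ ((x.1 : Perm α) u) = w
    rw [show (x.1 : Perm α) u = u' from x.2]
    exact Perm.inv_eq_iff_eq.mpr hw.symm
  · intro x
    apply Subtype.ext
    exact inv_mul_cancel_left _ _
  · intro x
    apply Subtype.ext
    exact mul_inv_cancel_left _ _

private theorem ct_pairs : Fintype.card {p : α × α // p.1 ≠ p.2} =
    Fintype.card α * (Fintype.card α - 1) := by
  rw [Fintype.card_subtype, Nat.mul_sub, mul_one, ← Finset.card_univ (α := α),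
    ← Finset.offDiag_card]
  congr 1
  ext p
  simp

theorem count_two (G : Subgroup (Perm α)) (hG : Two G) {u v u' v' : α} (h : u ≠ v)
    (h' : u' ≠ v') :
    Nat.card {x : G // (x : Perm α) u = u' ∧ (x : Perm α) v = v'} *
      (Fintype.card α * (Fintype.card α - 1)) = Nat.card G := by
  have e : ∀ p : {p : α × α // p.1 ≠ p.2}, Nat.card {x : G // (⟨((x : Perm α) u, (x : Perm α) v),
      fun hc => h ((x : Perm α).injective hc)⟩ : {p : α × α // p.1 ≠ p.2}) = p} =
      Nat.card {x : G // (x : Perm α) u = p.1.1 ∧ (x : Perm α) v = p.1.2} := by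
    intro p
    refine Nat.card_congr (Equiv.subtypeEquivRight fun x => ?_)
    rw [Subtype.ext_iff, Prod.ext_iff]
  have key := ct_fib (fun x : G => (⟨((x : Perm α) u, (x : Perm α) v),
      fun hc => h ((x : Perm α).injective hc)⟩ : {p : α × α // p.1 ≠ p.2})) ⟨(u', v'), h'⟩ ?_
  · rw [e ⟨(u', v'), h'⟩, ct_pairs] at key
    exact key
  · intro p
    rw [e, e]
    obtain ⟨g, hg, hg1, hg2⟩ := hG p.1.1 p.1.2 u' v' p.2 h'
    refine Nat.card_congr ⟨fun x => ⟨⟨g, hg⟩ * x.1, ?_, ?_⟩, fun x => ⟨⟨g, hg⟩⁻¹ * x.1, ?_, ?_⟩,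
      ?_, ?_⟩
    · show g ((x.1 : Perm α) u) = u'
      rw [x.2.1, hg1]
    · show g ((x.1 : Perm α) v) = v'
      rw [x.2.2, hg2]
    · show g⁻¹ ((x.1 : Perm α) u) = p.1.1
      rw [show (x.1 : Perm α) u = u' from x.2.1]
      exact Perm.inv_eq_iff_eq.mpr hg1.symm
    · show g⁻¹ ((x.1 : Perm α) v) = p.1.2
      rw [show (x.1 : Perm α) v = v' from x.2.2]
      exact Perm.inv_eq_iff_eq.mpr hg2.symm
    · intro x
      apply Subtype.ext
      exact inv_mul_cancel_left _ _
    · intro x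
      apply Subtype.ext
      exact mul_inv_cancel_left _ _

private theorem ct_tr (G : Subgroup (Perm α)) (hG : Two G) (hn : 2 ≤ Fintype.card α) (u v : α) :
    ∃ g ∈ G, g u = v := by
  have : Nontrivial α := Fintype.one_lt_card_iff_nontrivial.mp hn
  obtain ⟨w, hw⟩ := exists_ne u
  obtain ⟨w', hw'⟩ := exists_ne v
  obtain ⟨g, hg, h1, -⟩ := hG u w v w' hw.symm hw'.symm
  exact ⟨g, hg, h1⟩

private theorem ct_sum (G : Subgroup (Perm α)) [Fintype G] (p : Perm α → Prop) [DecidablePred p] :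
    (∑ x : G, if p (x : Perm α) then 1 else 0) = Nat.card {x : G // p (x : Perm α)} := by
  rw [← Finset.card_filter, Nat.card_eq_fintype_card, Fintype.card_subtype]

private theorem ct_mem (Γ : Finset α) (a : α) :
    (if a ∈ Γ then 1 else 0) = ∑ e ∈ Γ, if a = e then 1 else 0 := by
  rw [Finset.sum_ite_eq]

theorem sum_inter (G : Subgroup (Perm α)) [Fintype G] (hG : Two G) (Γ : Finset α)
    (hn : 2 ≤ Fintype.card α) :
    (∑ x : G, (Γ.filter fun d => (x : Perm α) d ∈ Γ).card) * Fintype.card α =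
      Nat.card G * Γ.card ^ 2 := by
  have h1 : (∑ x : G, (Γ.filter fun d => (x : Perm α) d ∈ Γ).card) =
      ∑ d ∈ Γ, ∑ e ∈ Γ, Nat.card {x : G // (x : Perm α) d = e} := by
    calc (∑ x : G, (Γ.filter fun d => (x : Perm α) d ∈ Γ).card)
        = ∑ x : G, ∑ d ∈ Γ, ∑ e ∈ Γ, (if (x : Perm α) d = e then 1 else 0) := by
          refine Finset.sum_congr rfl fun x _ => ?_
          rw [Finset.card_filter]
          exact Finset.sum_congr rfl fun d _ => ct_mem Γ _
      _ = ∑ d ∈ Γ, ∑ e ∈ Γ, ∑ x : G, (if (x : Perm α) d = e then 1 else 0) := by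
          rw [Finset.sum_comm]
          refine Finset.sum_congr rfl fun d _ => ?_
          rw [Finset.sum_comm]
      _ = _ := by
          refine Finset.sum_congr rfl fun d _ => Finset.sum_congr rfl fun e _ => ?_
          exact ct_sum G (fun x => x d = e)
  rw [h1, Finset.sum_mul]
  calc (∑ d ∈ Γ, (∑ e ∈ Γ, Nat.card {x : G // (x : Perm α) d = e}) * Fintype.card α)
      = ∑ d ∈ Γ, ∑ e ∈ Γ, Nat.card G := by
        refine Finset.sum_congr rfl fun d _ => ?_
        rw [Finset.sum_mul]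
        exact Finset.sum_congr rfl fun e _ => count_one G (ct_tr G hG hn) d e
    _ = Nat.card G * Γ.card ^ 2 := by
        rw [Finset.sum_const, Finset.sum_const, smul_eq_mul, smul_eq_mul]
        ring

theorem sum_inter_two (G : Subgroup (Perm α)) [Fintype G] (hG : Two G) (Γ : Finset α) :
    (∑ x : G, (Γ.filter fun d => (x : Perm α) d ∈ Γ).card *
      ((Γ.filter fun d => (x : Perm α) d ∈ Γ).card - 1)) *
      (Fintype.card α * (Fintype.card α - 1)) = Nat.card G * (Γ.card * (Γ.card - 1)) ^ 2 := by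
  have hoff : ∀ A : Finset α, A.card * (A.card - 1) = A.offDiag.card := by
    intro A
    rw [Finset.offDiag_card, Nat.mul_sub, mul_one]
  have h1 : (∑ x : G, (Γ.filter fun d => (x : Perm α) d ∈ Γ).card *
      ((Γ.filter fun d => (x : Perm α) d ∈ Γ).card - 1)) =
      ∑ d ∈ Γ.offDiag, ∑ e ∈ Γ.offDiag,
        Nat.card {x : G // (x : Perm α) d.1 = e.1 ∧ (x : Perm α) d.2 = e.2} := by
    calc (∑ x : G, (Γ.filter fun d => (x : Perm α) d ∈ Γ).card *
          ((Γ.filter fun d => (x : Perm α) d ∈ Γ).card - 1))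
        = ∑ x : G, ∑ d ∈ Γ.offDiag, ∑ e ∈ Γ.offDiag,
            (if (x : Perm α) d.1 = e.1 ∧ (x : Perm α) d.2 = e.2 then 1 else 0) := by
          refine Finset.sum_congr rfl fun x _ => ?_
          rw [hoff]
          have e1 : (Γ.filter fun d => (x : Perm α) d ∈ Γ).offDiag =
              Γ.offDiag.filter fun d => ((x : Perm α) d.1, (x : Perm α) d.2) ∈ Γ.offDiag := by
            ext d
            simp only [Finset.mem_offDiag, Finset.mem_filter]
            constructor
            · rintro ⟨⟨a1, a2⟩, ⟨b1, b2⟩, c⟩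
              exact ⟨⟨a1, b1, c⟩, a2, b2, fun hc => c ((x : Perm α).injective hc)⟩
            · rintro ⟨⟨a1, b1, c⟩, a2, b2, -⟩
              exact ⟨⟨a1, a2⟩, ⟨b1, b2⟩, c⟩
          rw [e1, Finset.card_filter]
          refine Finset.sum_congr rfl fun d _ => ?_
          rw [ct_mem]
          refine Finset.sum_congr rfl fun e _ => ?_
          simp only [Prod.ext_iff]
      _ = ∑ d ∈ Γ.offDiag, ∑ e ∈ Γ.offDiag, ∑ x : G,
            (if (x : Perm α) d.1 = e.1 ∧ (x : Perm α) d.2 = e.2 then 1 else 0) := by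
          rw [Finset.sum_comm]
          refine Finset.sum_congr rfl fun d _ => ?_
          rw [Finset.sum_comm]
      _ = _ := by
          refine Finset.sum_congr rfl fun d _ => Finset.sum_congr rfl fun e _ => ?_
          exact ct_sum G (fun x => x d.1 = e.1 ∧ x d.2 = e.2)
  rw [h1, Finset.sum_mul]
  calc (∑ d ∈ Γ.offDiag, (∑ e ∈ Γ.offDiag,
        Nat.card {x : G // (x : Perm α) d.1 = e.1 ∧ (x : Perm α) d.2 = e.2}) *
          (Fintype.card α * (Fintype.card α - 1)))
      = ∑ d ∈ Γ.offDiag, ∑ e ∈ Γ.offDiag, Nat.card G := by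
        refine Finset.sum_congr rfl fun d hd => ?_
        rw [Finset.sum_mul]
        refine Finset.sum_congr rfl fun e he => ?_
        exact count_two G hG (Finset.mem_offDiag.1 hd).2.2 (Finset.mem_offDiag.1 he).2.2
    _ = Nat.card G * (Γ.card * (Γ.card - 1)) ^ 2 := by
        rw [Finset.sum_const, Finset.sum_const, smul_eq_mul, smul_eq_mul, hoff Γ]
        ring

theorem sum_out (G : Subgroup (Perm α)) [Fintype G] (hG : Two G) (Γ : Finset α) (σ : Perm α)
    (hσ : ∀ d ∈ Γ, σ d ≠ d) :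
    (∑ x : G, (Γ.filter fun d => (x : Perm α) d ∈ Γ ∧ (x : Perm α) (σ d) ∉ Γ).card) *
      (Fintype.card α * (Fintype.card α - 1)) =
      Nat.card G * (Γ.card * (Γ.card * (Fintype.card α - Γ.card))) := by
  have h1 : (∑ x : G, (Γ.filter fun d => (x : Perm α) d ∈ Γ ∧ (x : Perm α) (σ d) ∉ Γ).card) =
      ∑ d ∈ Γ, ∑ e ∈ Γ ×ˢ Γᶜ,
        Nat.card {x : G // (x : Perm α) d = e.1 ∧ (x : Perm α) (σ d) = e.2} := by
    calc (∑ x : G, (Γ.filter fun d => (x : Perm α) d ∈ Γ ∧ (x : Perm α) (σ d) ∉ Γ).card)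
        = ∑ x : G, ∑ d ∈ Γ, ∑ e ∈ Γ ×ˢ Γᶜ,
            (if (x : Perm α) d = e.1 ∧ (x : Perm α) (σ d) = e.2 then 1 else 0) := by
          refine Finset.sum_congr rfl fun x _ => ?_
          rw [Finset.card_filter]
          refine Finset.sum_congr rfl fun d _ => ?_
          have e1 : ((x : Perm α) d ∈ Γ ∧ (x : Perm α) (σ d) ∉ Γ) ↔
              ((x : Perm α) d, (x : Perm α) (σ d)) ∈ Γ ×ˢ Γᶜ := by
            rw [Finset.mem_product, Finset.mem_compl]
          rw [if_congr e1 rfl rfl]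
          have e2 : (if ((x : Perm α) d, (x : Perm α) (σ d)) ∈ Γ ×ˢ Γᶜ then 1 else 0) =
              ∑ e ∈ Γ ×ˢ Γᶜ, if ((x : Perm α) d, (x : Perm α) (σ d)) = e then 1 else 0 := by
            rw [Finset.sum_ite_eq]
          rw [e2]
          refine Finset.sum_congr rfl fun e _ => ?_
          simp only [Prod.ext_iff]
      _ = ∑ d ∈ Γ, ∑ e ∈ Γ ×ˢ Γᶜ, ∑ x : G,
            (if (x : Perm α) d = e.1 ∧ (x : Perm α) (σ d) = e.2 then 1 else 0) := by
          rw [Finset.sum_comm]
          refine Finset.sum_congr rfl fun d _ => ?_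
          rw [Finset.sum_comm]
      _ = _ := by
          refine Finset.sum_congr rfl fun d _ => Finset.sum_congr rfl fun e _ => ?_
          exact ct_sum G (fun x => x d = e.1 ∧ x (σ d) = e.2)
  rw [h1, Finset.sum_mul]
  calc (∑ d ∈ Γ, (∑ e ∈ Γ ×ˢ Γᶜ,
        Nat.card {x : G // (x : Perm α) d = e.1 ∧ (x : Perm α) (σ d) = e.2}) *
          (Fintype.card α * (Fintype.card α - 1)))
      = ∑ d ∈ Γ, ∑ e ∈ Γ ×ˢ Γᶜ, Nat.card G := by
        refine Finset.sum_congr rfl fun d hd => ?_
        rw [Finset.sum_mul]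
        refine Finset.sum_congr rfl fun e he => ?_
        have he' := Finset.mem_product.1 he
        have hne : e.1 ≠ e.2 := by
          intro hc
          exact (Finset.mem_compl.1 he'.2) (hc ▸ he'.1)
        exact count_two G hG (hσ d hd).symm hne
    _ = Nat.card G * (Γ.card * (Γ.card * (Fintype.card α - Γ.card))) := by
        rw [Finset.sum_const, Finset.sum_const, smul_eq_mul, smul_eq_mul, Finset.card_product,
          Finset.card_compl]
        ring

end Pool.Agent.Lib.TGX
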