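/-
Project TGX, block B (order of primitive groups, elementary): definitions.
-/
import Pool.Agent.Lib.TGX.Defs

namespace Pool.Agent.Lib.TGX

open Equiv

variable {α : Type}

/-- points `z` that distinguish `x` from `y`: no element of `G` fixes `z` and maps `x` to `y`
(equivalently `(x,z)` and `(y,z)` lie in different `G`-orbits on pairs) -/
def dset (G : Subgroup (Perm α)) (x y : α) : Set α := {z | ¬ ∃ g ∈ G, g z = z ∧ g x = y}

/-- the graph of the images of the unordered pair `{x, y}` -/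
def orb (G : Subgroup (Perm α)) (x y : α) : SimpleGraph α where
  Adj u v := u ≠ v ∧ ∃ g ∈ G, (g x = u ∧ g y = v) ∨ (g x = v ∧ g y = u)
  symm := ⟨fun _ _ h => ⟨h.1.symm, h.2.imp fun _ hg => ⟨hg.1, hg.2.symm⟩⟩⟩
  loopless := ⟨fun _ h => h.1 rfl⟩

/-- the orbit of `x` under the pointwise stabiliser of `Δ` in `G` -/
def sorb (G : Subgroup (Perm α)) (Δ : Finset α) (x : α) : Set α :=
  {y | ∃ g ∈ G, (∀ z ∈ Δ, g z = z) ∧ g x = y}

end Pool.Agent.Lib.TGX
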