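/-
TGX B.Dist1 (paper 2.1 (1)). `G` primitive, `x ≠ y`, `k` = valency of the graph `orb G x y`,
`δ = |dset G x y|`: then `n ≤ k δ + 1`.
PROOF. Fix `z`. Every `u ≠ z` has a neighbour `u'` (in the connected graph `orb G x y`) with
`dist u' z + 1 = dist u z`, so `z ∈ dset G u u'` (`dist_eq_of_not_mem_dset`). So the number of triples
`(u,u',z)`, `u ~ u'`, `z ∈ dset G u u'` is at least `n (n-1)`. Counting by pairs it is
`n * k * δ` (`orb_degree`, `orb_dset_card`). Divide by `n`.
-/
import Pool.Agent.Lib.TGX.B.Orb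

namespace Pool.Agent.Lib.TGX

open Equiv

theorem dist_one {α : Type} [Finite α] (G : Subgroup (Perm α)) (hG : Prim G) {x y : α}
    (hxy : x ≠ y) (u : α) :
    Nat.card α ≤ ((orb G x y).neighborSet u).ncard * (dset G x y).ncard + 1 := by
  classical
  have hconn := orb_connected G hG hxy
  obtain ⟨N, hN⟩ : ∃ N : Finset α, ∀ w, w ∈ N ↔ (orb G x y).Adj u w :=
    ⟨((Set.toFinite ((orb G x y).neighborSet u)).toFinset), fun w => by
      rw [Set.Finite.mem_toFinset, SimpleGraph.mem_neighborSet]⟩
  obtain ⟨D, hD⟩ : ∃ D : α → Finset α, ∀ w z, z ∈ D w ↔ z ∈ dset G u w :=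
    ⟨fun w => (Set.toFinite (dset G u w)).toFinset, fun w z => by rw [Set.Finite.mem_toFinset]⟩
  have hNc : N.card = ((orb G x y).neighborSet u).ncard := by
    rw [← Set.ncard_coe_finset]
    congr 1
    ext w
    rw [Finset.mem_coe, hN, SimpleGraph.mem_neighborSet]
  have hDc : ∀ w ∈ N, (D w).card ≤ (dset G x y).ncard := by
    intro w hw
    rw [← orb_dset_card G ((hN w).1 hw), ← Set.ncard_coe_finset]
    refine le_of_eq ?_
    congr 1
    ext z
    rw [Finset.mem_coe, hD]
  have hcov : ({u}ᶜ : Set α) ⊆ ((N.biUnion D : Finset α) : Set α) := by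
    intro z hz
    have hz' : u ≠ z := fun h => hz h.symm
    obtain ⟨p, hp⟩ := hconn.exists_walk_length_eq_dist u z
    cases p with
    | nil => exact absurd rfl hz'
    | @cons _ w _ h q =>
      rw [SimpleGraph.Walk.length_cons] at hp
      have h1 : (orb G x y).dist w z ≤ q.length := SimpleGraph.dist_le q
      rw [Finset.mem_coe, Finset.mem_biUnion]
      refine ⟨w, (hN w).2 h, (hD w z).2 ?_⟩
      by_contra hcon
      have h2 := dist_eq_of_not_mem_dset G x y hcon
      omega
  have h1 : ({u}ᶜ : Set α).ncard ≤ (N.biUnion D).card := by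
    rw [← Set.ncard_coe_finset]
    exact Set.ncard_le_ncard hcov (Set.toFinite _)
  have h2 : (N.biUnion D).card ≤ N.card * (dset G x y).ncard :=
    Finset.card_biUnion_le_card_mul _ _ _ hDc
  have h3 := Set.ncard_add_ncard_compl ({u} : Set α)
  rw [Set.ncard_singleton] at h3
  rw [hNc] at h2
  omega

end Pool.Agent.Lib.TGX
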