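/-
TGX B.Orb. Basic facts on the sets `dset G x y` and the graphs `orb G x y` (see B/DefsB).
PROOFS.
(dset_symm) if `g z = z`, `g x = y` then `g⁻¹ z = z`, `g⁻¹ y = x`.
(dset_triangle) if `z` is in neither `dset G x w` nor `dset G w y` compose the two elements.
(dset_card) for `g ∈ G`: `dset G (g x) (g y) = g '' dset G x y` (conjugate by `g`), so equal ncard.
(orb_dset_card) an adjacent pair `(u,v)` of `orb G x y` is `(g x, g y)` or `(g y, g x)`.
(orb_inv) `G` acts by automorphisms on `orb G x y`.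
(orb_connected) `Prim G`, `x ≠ y`: reachability is a `G`-invariant equivalence relation
(`orb_inv`), relating `x` and `y` (adjacent), so everything is reachable (`Prim`).
(orb_degree) `G` transitive: `g` maps neighbours of `u` bijectively to neighbours of `g u`.
(dset_of_color) if `u` is adjacent to `z` in `orb G x y` and `v` is not and `v ≠ z`... in the form:
an element `g ∈ G` with `g z = z`, `g u = v` maps an edge `uz` to an edge `vz`; so
`z ∉ dset G u v` implies `Adj u z ↔ Adj v z`, and also distances to `z` agree: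
`dist u z = dist v z`.
-/
import Pool.Agent.Lib.TGX.B.DefsB

namespace Pool.Agent.Lib.TGX

open Equiv

variable {α : Type}

private theorem bOrb_ai (g : Perm α) (z : α) : g (g⁻¹ z) = z := Equiv.apply_symm_apply g z

private theorem bOrb_ia (g : Perm α) (z : α) : g⁻¹ (g z) = z := Equiv.symm_apply_apply g z

theorem dset_symm (G : Subgroup (Perm α)) (x y : α) : dset G x y = dset G y x := by
  ext z
  simp only [dset, Set.mem_ofPred_eq]
  refine not_congr ⟨?_, ?_⟩
  · rintro ⟨g, hg, h1, h2⟩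
    exact ⟨g⁻¹, G.inv_mem hg, Perm.inv_eq_iff_eq.2 h1.symm, Perm.inv_eq_iff_eq.2 h2.symm⟩
  · rintro ⟨g, hg, h1, h2⟩
    exact ⟨g⁻¹, G.inv_mem hg, Perm.inv_eq_iff_eq.2 h1.symm, Perm.inv_eq_iff_eq.2 h2.symm⟩

theorem dset_triangle (G : Subgroup (Perm α)) (x w y : α) :
    dset G x y ⊆ dset G x w ∪ dset G w y := by
  intro z hz
  by_contra h
  simp only [Set.mem_union, dset, Set.mem_ofPred_eq] at h hz
  push Not at h
  obtain ⟨⟨g, hg, h1, h2⟩, g', hg', h3, h4⟩ := h
  exact hz ⟨g' * g, G.mul_mem hg' hg, by rw [Perm.mul_apply, h1, h3],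
    by rw [Perm.mul_apply, h2, h4]⟩

theorem dset_card (G : Subgroup (Perm α)) {g : Perm α} (hg : g ∈ G) (x y : α) :
    (dset G (g x) (g y)).ncard = (dset G x y).ncard := by
  have h : dset G (g x) (g y) = g '' dset G x y := by
    ext z
    simp only [dset, Set.mem_image, Set.mem_ofPred_eq]
    constructor
    · intro hz
      refine ⟨g⁻¹ z, ?_, bOrb_ai g z⟩
      rintro ⟨f, hf, h1, h2⟩
      refine hz ⟨g * f * g⁻¹, G.mul_mem (G.mul_mem hg hf) (G.inv_mem hg), ?_, ?_⟩
      · rw [Perm.mul_apply, Perm.mul_apply, h1, bOrb_ai]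
      · rw [Perm.mul_apply, Perm.mul_apply, bOrb_ia, h2]
    · rintro ⟨w, hw, rfl⟩ ⟨f, hf, h1, h2⟩
      refine hw ⟨g⁻¹ * f * g, G.mul_mem (G.mul_mem (G.inv_mem hg) hf) hg, ?_, ?_⟩
      · rw [Perm.mul_apply, Perm.mul_apply, h1, bOrb_ia]
      · rw [Perm.mul_apply, Perm.mul_apply, h2, bOrb_ia]
  rw [h]
  exact Set.ncard_image_of_injective _ g.injective

theorem orb_dset_card (G : Subgroup (Perm α)) {x y u v : α} (h : (orb G x y).Adj u v) :
    (dset G u v).ncard = (dset G x y).ncard := by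
  obtain ⟨_, g, hg, ⟨h1, h2⟩ | ⟨h1, h2⟩⟩ := h
  · rw [← h1, ← h2]
    exact dset_card G hg x y
  · rw [← h1, ← h2, dset_symm]
    exact dset_card G hg x y

private theorem bOrb_inv_aux (G : Subgroup (Perm α)) {g : Perm α} (hg : g ∈ G) {x y u v : α}
    (h : (orb G x y).Adj u v) : (orb G x y).Adj (g u) (g v) := by
  obtain ⟨hne, f, hf, h⟩ := h
  refine ⟨fun h' => hne (g.injective h'), g * f, G.mul_mem hg hf, ?_⟩
  rcases h with ⟨h1, h2⟩ | ⟨h1, h2⟩
  · left
    rw [Perm.mul_apply, Perm.mul_apply, h1, h2]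
    exact ⟨rfl, rfl⟩
  · right
    rw [Perm.mul_apply, Perm.mul_apply, h1, h2]
    exact ⟨rfl, rfl⟩

theorem orb_inv (G : Subgroup (Perm α)) {g : Perm α} (hg : g ∈ G) (x y u v : α) :
    (orb G x y).Adj (g u) (g v) ↔ (orb G x y).Adj u v := by
  refine ⟨fun h => ?_, bOrb_inv_aux G hg⟩
  have := bOrb_inv_aux G (G.inv_mem hg) h
  rwa [bOrb_ia, bOrb_ia] at this

private def bOrb_hom (G : Subgroup (Perm α)) {g : Perm α} (hg : g ∈ G) (x y : α) :
    orb G x y →g orb G x y where
  toFun := g
  map_rel' := fun h => bOrb_inv_aux G hg h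

theorem orb_connected (G : Subgroup (Perm α)) (hG : Prim G) {x y : α} (hxy : x ≠ y) :
    (orb G x y).Connected := by
  have hadj : (orb G x y).Adj x y := ⟨hxy, 1, G.one_mem, Or.inl ⟨rfl, rfl⟩⟩
  rcases hG.2 (SimpleGraph.reachableSetoid (orb G x y)) (fun g hg u v h => by
    exact SimpleGraph.Reachable.map (bOrb_hom G hg x y) h) with h | h
  · exact absurd (h x y hadj.reachable) hxy
  · have : Nonempty α := ⟨x⟩
    exact ⟨fun u v => h u v⟩

theorem orb_degree (G : Subgroup (Perm α)) (hG : ∀ u v : α, ∃ g ∈ G, g u = v) (x y u v : α) :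
    ((orb G x y).neighborSet u).ncard = ((orb G x y).neighborSet v).ncard := by
  obtain ⟨g, hg, rfl⟩ := hG u v
  have h : (orb G x y).neighborSet (g u) = g '' (orb G x y).neighborSet u := by
    ext z
    simp only [SimpleGraph.mem_neighborSet, Set.mem_image]
    constructor
    · intro hz
      refine ⟨g⁻¹ z, ?_, bOrb_ai g z⟩
      rw [← orb_inv G hg, bOrb_ai]
      exact hz
    · rintro ⟨w, hw, rfl⟩
      exact (orb_inv G hg _ _ _ _).2 hw
  rw [h]
  exact (Set.ncard_image_of_injective _ g.injective).symm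

theorem adj_iff_of_not_mem_dset (G : Subgroup (Perm α)) (x y : α) {u v z : α}
    (h : z ∉ dset G u v) : (orb G x y).Adj u z ↔ (orb G x y).Adj v z := by
  simp only [dset, Set.mem_ofPred_eq, not_not] at h
  obtain ⟨g, hg, h1, h2⟩ := h
  rw [← orb_inv G hg x y u z, h1, h2]

private theorem bOrb_dist_le (G : Subgroup (Perm α)) {g : Perm α} (hg : g ∈ G) (x y : α)
    {u v : α} (h : (orb G x y).Reachable u v) :
    (orb G x y).dist (g u) (g v) ≤ (orb G x y).dist u v := by
  obtain ⟨p, hp⟩ := h.exists_walk_length_eq_dist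
  rw [← hp]
  have := SimpleGraph.dist_le (p.map (bOrb_hom G hg x y))
  rwa [SimpleGraph.Walk.length_map] at this

private theorem bOrb_dist (G : Subgroup (Perm α)) {g : Perm α} (hg : g ∈ G) (x y : α)
    (u v : α) : (orb G x y).dist (g u) (g v) = (orb G x y).dist u v := by
  by_cases h : (orb G x y).Reachable u v
  · refine le_antisymm (bOrb_dist_le G hg x y h) ?_
    have h' : (orb G x y).Reachable (g u) (g v) := SimpleGraph.Reachable.map (bOrb_hom G hg x y) h
    have := bOrb_dist_le G (G.inv_mem hg) x y h'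
    rwa [bOrb_ia, bOrb_ia] at this
  · have h' : ¬ (orb G x y).Reachable (g u) (g v) := by
      intro h'
      have := SimpleGraph.Reachable.map (bOrb_hom G (G.inv_mem hg) x y) h'
      change (orb G x y).Reachable (g⁻¹ (g u)) (g⁻¹ (g v)) at this
      rw [bOrb_ia, bOrb_ia] at this
      exact h this
    rw [SimpleGraph.dist_eq_zero_of_not_reachable h, SimpleGraph.dist_eq_zero_of_not_reachable h']

theorem dist_eq_of_not_mem_dset (G : Subgroup (Perm α)) (x y : α) {u v z : α}
    (h : z ∉ dset G u v) : (orb G x y).dist u z = (orb G x y).dist v z := by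
  simp only [dset, Set.mem_ofPred_eq, not_not] at h
  obtain ⟨g, hg, h1, h2⟩ := h
  rw [← bOrb_dist G hg x y u z, h1, h2]

end Pool.Agent.Lib.TGX
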