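/-
TGX B.Dist2 (paper 2.1 (2)). `G` primitive, `x ≠ y`, `E = orb G x y` of valency `k`,
`δ = |dset G x y|`. If `2 δ ≤ k`, then for every `u` at most `δ` points `z ≠ u` are not adjacent
to `u`, and for each of them `|dset G u z| ≤ 2 δ`.
PROOF. For `u ~ v` the symmetric difference of `N(u)` and `N(v)` is contained in `dset G u v`
(`adj_iff_of_not_mem_dset`, adjacency is symmetric), which has `δ` elements (`orb_dset_card`). If
`dist u w = 3` (path `u,a,b,w`): `N(u) △ N(w) ⊆ dset G u a ∪ dset G a b ∪ dset G b w` has at most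
`3 δ` elements, but `N(u)`, `N(w)` are disjoint (a common neighbour would give distance ≤ 2), so
`2 k ≤ 3 δ ≤ 3 k / 2`, so `k = 0`, impossible (connected graph with ≥ 2 points; `x ~ y`). A connected
graph with no pair at distance exactly 3 has all distances ≤ 2. For `z` at distance 2 from `u`
(common neighbour `a`): `dset G u z ⊆ dset G u a ∪ dset G a z`, so `|dset G u z| ≤ 2 δ`, and
`|N(u) △ N(z)| ≤ 2 δ`, `|N(u)| = |N(z)| = k`, so `|N(u) ∩ N(z)| ≥ k - δ`. Count pairs `(a,z)`,
`a ∈ N(u)`, `z ∈ S_2 = {z : dist u z = 2}`, `a ~ z`: for given `a`, `z ∈ N(a) \ N(u)`, and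
`|N(a) \ N(u)| = |N(a) △ N(u)| / 2 ≤ δ / 2`; so `|S_2| (k - δ) ≤ k δ / 2`; with `k ≥ 2 δ`,
`k ≤ 2 (k - δ)`, so `|S_2| ≤ δ` (`k - δ > 0` because `k > 0`; if `δ = 0` fine too).
-/
import Pool.Agent.Lib.TGX.B.Orb

namespace Pool.Agent.Lib.TGX

open Equiv

theorem dist_two {α : Type} [Finite α] (G : Subgroup (Perm α)) (hG : Prim G) {x y : α}
    (hxy : x ≠ y) (u : α)
    (h : 2 * (dset G x y).ncard ≤ ((orb G x y).neighborSet u).ncard) :
    {z | z ≠ u ∧ ¬ (orb G x y).Adj u z}.ncard ≤ (dset G x y).ncard ∧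
    ∀ z, z ≠ u → ¬ (orb G x y).Adj u z → (dset G u z).ncard ≤ 2 * (dset G x y).ncard := by
  classical
  have := Fintype.ofFinite α
  obtain ⟨N, hNdef⟩ : ∃ N : α → Finset α, ∀ v z, z ∈ N v ↔ (orb G x y).Adj v z :=
    ⟨fun v => Finset.univ.filter (fun z => (orb G x y).Adj v z), fun v z => by simp⟩
  obtain ⟨DD, hDdef⟩ : ∃ D : α → α → Finset α, ∀ v w z, z ∈ D v w ↔ z ∈ dset G v w :=
    ⟨fun v w => Finset.univ.filter (fun z => z ∈ dset G v w), fun v w z => by simp⟩
  have hN : ∀ v, (N v).card = ((orb G x y).neighborSet v).ncard := by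
    intro v
    rw [← Set.ncard_coe_finset]
    congr 1
    ext z
    rw [Finset.mem_coe, hNdef, SimpleGraph.mem_neighborSet]
  have hD : ∀ v w, (DD v w).card = (dset G v w).ncard := by
    intro v w
    rw [← Set.ncard_coe_finset]
    congr 1
    ext z
    rw [Finset.mem_coe, hDdef]
  have hk : ∀ v, (N v).card = (N u).card := by
    intro v
    rw [hN, hN]
    exact orb_degree G hG.1 x y v u
  rw [← hN u] at h
  have hadj : ∀ v w, (orb G x y).Adj v w → (DD v w).card = (dset G x y).ncard := by
    intro v w hvw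
    rw [hD]
    exact orb_dset_card G hvw
  generalize (dset G x y).ncard = δ at h hadj ⊢
  have hkpos : 0 < (N u).card := by
    rw [← hk x]
    refine Finset.card_pos.2 ⟨y, ?_⟩
    rw [hNdef]
    exact ⟨hxy, 1, G.one_mem, Or.inl ⟨rfl, rfl⟩⟩
  have half : ∀ v w, 2 * (N v \ N w).card ≤ (DD v w).card := by
    intro v w
    have h1 : (N v \ N w).card = (N w \ N v).card :=
      Finset.card_sdiff_comm ((hk v).trans (hk w).symm)
    have h2 : Disjoint (N v \ N w) (N w \ N v) := by
      rw [Finset.disjoint_left]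
      intro z hz hz'
      exact (Finset.mem_sdiff.1 hz').2 (Finset.mem_sdiff.1 hz).1
    have h3 : (N v \ N w) ∪ (N w \ N v) ⊆ DD v w := by
      intro z hz
      rw [hDdef]
      by_contra hne
      have h4 := adj_iff_of_not_mem_dset G x y hne
      rw [← hNdef, ← hNdef] at h4
      rcases Finset.mem_union.1 hz with hz | hz
      · exact (Finset.mem_sdiff.1 hz).2 (h4.1 (Finset.mem_sdiff.1 hz).1)
      · exact (Finset.mem_sdiff.1 hz).2 (h4.2 (Finset.mem_sdiff.1 hz).1)
    have h4 := Finset.card_le_card h3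
    rw [Finset.card_union_of_disjoint h2] at h4
    omega
  have tri : ∀ v w z, (DD v z).card ≤ (DD v w).card + (DD w z).card := by
    intro v w z
    refine (Finset.card_le_card ?_).trans (Finset.card_union_le _ _)
    intro p hp
    rw [hDdef] at hp
    rw [Finset.mem_union, hDdef, hDdef]
    exact dset_triangle G v w z hp
  have allP : ∀ w, w = u ∨ (orb G x y).Adj u w ∨
      ∃ c, (orb G x y).Adj u c ∧ (orb G x y).Adj c w := by
    intro w
    have h1 := (orb_connected G hG hxy).preconnected u w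
    rw [SimpleGraph.reachable_iff_reflTransGen] at h1
    induction h1 with
    | refl => exact Or.inl rfl
    | tail _ hbw ih =>
      rename_i b w _
      rcases ih with rfl | ih | ⟨a, ha, hab⟩
      · exact Or.inr (Or.inl hbw)
      · exact Or.inr (Or.inr ⟨b, ih, hbw⟩)
      · by_contra hne
        push Not at hne
        have h2 : N u \ N w = N u := by
          rw [Finset.sdiff_eq_self_iff_disjoint, Finset.disjoint_left]
          intro c hc hc'
          rw [hNdef] at hc hc'
          exact hne.2.2 c hc hc'.symm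
        have h3 := half u w
        rw [h2] at h3
        have h4 := tri u a w
        have h5 := tri a b w
        have h6 := hadj _ _ ha
        have h7 := hadj _ _ hab
        have h8 := hadj _ _ hbw
        omega
  have dist2 : ∀ z, z ≠ u → ¬ (orb G x y).Adj u z → (DD u z).card ≤ 2 * δ := by
    intro z hz hz'
    rcases allP z with h1 | h1 | ⟨c, hc, hc'⟩
    · exact absurd h1 hz
    · exact absurd h1 hz'
    · have h4 := tri u c z
      have h6 := hadj _ _ hc
      have h7 := hadj _ _ hc'
      omega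
  refine ⟨?_, fun z hz hz' => by rw [← hD]; exact dist2 z hz hz'⟩
  obtain ⟨S, hS⟩ : ∃ S : Finset α, ∀ z, z ∈ S ↔ z ≠ u ∧ ¬ (orb G x y).Adj u z :=
    ⟨Finset.univ.filter (fun z => z ≠ u ∧ ¬ (orb G x y).Adj u z), fun z => by simp⟩
  have hScard : {z | z ≠ u ∧ ¬ (orb G x y).Adj u z}.ncard = S.card := by
    rw [← Set.ncard_coe_finset]
    congr 1
    ext z
    rw [Finset.mem_coe, hS]
    rfl
  rw [hScard]
  have hcount : S.card * ((N u).card - δ) ≤ (N u).card * (δ / 2) := by
    refine Finset.card_mul_le_card_mul (fun z a => (orb G x y).Adj a z) ?_ ?_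
    · intro z hz
      rw [hS] at hz
      have h1 : N u \ (N u \ N z) ⊆ Finset.bipartiteAbove (fun z a => (orb G x y).Adj a z) (N u) z := by
        intro a ha
        rw [Finset.mem_bipartiteAbove]
        rw [Finset.mem_sdiff, Finset.mem_sdiff] at ha
        refine ⟨ha.1, ?_⟩
        have h2 : a ∈ N z := by
          by_contra h3
          exact ha.2 ⟨ha.1, h3⟩
        rw [hNdef] at h2
        exact h2.symm
      refine le_trans ?_ (Finset.card_le_card h1)
      have h2 := half u z
      have h3 := dist2 z hz.1 hz.2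
      have h4 := Finset.le_card_sdiff (N u \ N z) (N u)
      omega
    · intro a ha
      rw [hNdef] at ha
      have h1 : Finset.bipartiteBelow (fun z a => (orb G x y).Adj a z) S a ⊆ N a \ N u := by
        intro z hz
        rw [Finset.mem_bipartiteBelow, hS] at hz
        rw [Finset.mem_sdiff, hNdef, hNdef]
        exact ⟨hz.2, hz.1.2⟩
      have h2 := Finset.card_le_card h1
      have h3 := half a u
      have h4 := hadj _ _ ha.symm
      omega
  generalize (N u).card = k at h hkpos hcount
  have h1 : S.card * (k - δ) * 2 ≤ δ * (k - δ) * 2 := by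
    calc S.card * (k - δ) * 2 ≤ k * (δ / 2) * 2 := Nat.mul_le_mul_right 2 hcount
      _ = k * (δ / 2 * 2) := by ring
      _ ≤ k * δ := Nat.mul_le_mul_left k (Nat.div_mul_le_self δ 2)
      _ ≤ ((k - δ) * 2) * δ := Nat.mul_le_mul_right δ (by omega)
      _ = δ * (k - δ) * 2 := by ring
  have h2 : 0 < k - δ := by omega
  have h3 : S.card * (k - δ) ≤ δ * (k - δ) := by omega
  exact Nat.le_of_mul_le_mul_right h3 h2

end Pool.Agent.Lib.TGX
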