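/-
TGX B.Dist3 (paper 2.1 (3), Babai's theorem). `G` primitive, not doubly transitive: every pair
`x ≠ y` is distinguished by at least `sqrt ((n-1)/2)` points.
PROOF. `δ = |dset G x y|`. Suppose `2 δ² + 1 < n`. `k` = valency of `orb G x y`. By `dist_one`
`n ≤ k δ + 1`, so `k δ > 2 δ²` and `δ > 0`, `k > 2 δ`. By `dist_two` (at `u = x`) at most `δ` points
`z ≠ x` are not adjacent to `x`.
Case 1: there is such a `z`. In `E' = orb G x z` the neighbours of `x` are not adjacent to `x` in
`orb G x y` (a neighbour `z'` of `x` in `E'` with `{x,z'} = g{x,z}`; if `x z'` were an edge of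
`orb G x y` so would be `x z` by `orb_inv`) so the valency `k'` of `E'` at `x` is at most `δ`. By
`dist_one` for `(x,z)`: `n ≤ k' |dset G x z| + 1 ≤ δ * 2 δ + 1`. Contradiction.
Case 2: every `z ≠ x` is adjacent to `x`, so (`orb_inv`, transitivity) any two distinct points are
adjacent in `orb G x y`: every ordered pair of distinct points is a `G`-image of `(x,y)` or `(y,x)`.
Since `G` is not doubly transitive, `(y,x)` is not a `G`-image of `(x,y)` (otherwise all pairs are
images of `(x,y)`). Let `T(u,v)` mean: `(u,v)` is a `G`-image of `(x,y)`; for `u ≠ v` exactly one of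
`T(u,v)`, `T(v,u)`. By transitivity the number `a` of `v` with `T(u,v)` does not depend on `u`,
and the number `b` of `v` with `T(v,u)` neither; `a = b` by counting pairs, `a + b = n - 1`. For
every `z` and `u,v ≠ z` with `T(u,z)`, `T(z,v)` we have `z ∈ dset G u v` (an element `g` with
`g z = z`, `g u = v` would give `T(v,z)`) and `u ≠ v`. So the number of triples `(u,v,z)`, `u ≠ v`,
`z ∈ dset G u v` is at least `n a b`; it equals `n (n-1) δ` (all `|dset G u v| = δ`). So
`δ ≥ a b / (n-1) = (n-1)/4`. (Counting also the pairs with `T(z,u)`, `T(v,z)` gives `(n-1)/2`: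
`n (n-1) δ ≥ 2 n a b`.) So `2 δ ≥ n - 1`, and `2 δ² ≥ 2 δ ≥ n - 1`. Contradiction.
-/
import Pool.Agent.Lib.TGX.B.Dist1
import Pool.Agent.Lib.TGX.B.Dist2

namespace Pool.Agent.Lib.TGX

open Equiv

private theorem d3_ncard {α : Type} [Fintype α] [DecidableEq α] (s : Set α)
    [DecidablePred (fun z => z ∈ s)] : s.ncard = ∑ z, if z ∈ s then 1 else 0 := by
  have h : ((Finset.univ.filter (fun z => z ∈ s) : Finset α) : Set α) = s := by
    ext z
    simp
  rw [← Finset.card_filter, ← Set.ncard_coe_finset, h]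

private theorem d3_inv {α : Type} (g : Perm α) (u : α) : g⁻¹ (g u) = u := by
  rw [← Perm.mul_apply, inv_mul_cancel, Perm.one_apply]

private theorem d3_inv2 {α : Type} (g : Perm α) (u : α) : g (g⁻¹ u) = u := by
  rw [← Perm.mul_apply, mul_inv_cancel, Perm.one_apply]

/-- `(u, v)` is an image of `(x, y)` -/
private def d3T {α : Type} (G : Subgroup (Perm α)) (x y u v : α) : Prop :=
  ∃ g ∈ G, g x = u ∧ g y = v

private theorem d3_map {α : Type} {G : Subgroup (Perm α)} {x y u v : α} (h : d3T G x y u v)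
    {g : Perm α} (hg : g ∈ G) : d3T G x y (g u) (g v) := by
  obtain ⟨f, hf, rfl, rfl⟩ := h
  exact ⟨g * f, G.mul_mem hg hf, rfl, rfl⟩

private theorem d3_map_iff {α : Type} {G : Subgroup (Perm α)} {x y u v : α}
    {g : Perm α} (hg : g ∈ G) : d3T G x y (g u) (g v) ↔ d3T G x y u v := by
  refine ⟨fun h => ?_, fun h => d3_map h hg⟩
  have h1 := d3_map h (G.inv_mem hg)
  rwa [d3_inv, d3_inv] at h1

private theorem d3_tour {α : Type} [Finite α] (G : Subgroup (Perm α)) (hG : Prim G) (h2 : ¬ Two G)
    {x y : α} (hxy : x ≠ y) (hall : ∀ u v : α, u ≠ v → (orb G x y).Adj u v) :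
    Nat.card α ≤ 2 * (dset G x y).ncard + 1 := by
  classical
  have := Fintype.ofFinite α
  have hT : ∀ u v : α, u ≠ v → d3T G x y u v ∨ d3T G x y v u := by
    intro u v huv
    obtain ⟨-, g, hg, h | h⟩ := hall u v huv
    · exact Or.inl ⟨g, hg, h⟩
    · exact Or.inr ⟨g, hg, h⟩
  have hyx : ¬ d3T G x y y x := by
    rintro ⟨f, hf, hf1, hf2⟩
    apply h2
    have hT1 : ∀ u v : α, u ≠ v → d3T G x y u v := by
      intro u v huv
      rcases hT u v huv with h | ⟨g, hg, h1, h3⟩
      · exact h
      · refine ⟨g * f, G.mul_mem hg hf, ?_, ?_⟩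
        · rw [Perm.mul_apply, hf1, h3]
        · rw [Perm.mul_apply, hf2, h1]
    intro u v u' v' huv huv'
    obtain ⟨g, hg, h1, h3⟩ := hT1 u v huv
    obtain ⟨g', hg', h1', h3'⟩ := hT1 u' v' huv'
    refine ⟨g' * g⁻¹, G.mul_mem hg' (G.inv_mem hg), ?_, ?_⟩
    · rw [Perm.mul_apply, ← h1, d3_inv, h1']
    · rw [Perm.mul_apply, ← h3, d3_inv, h3']
  have hanti : ∀ u v : α, d3T G x y u v → ¬ d3T G x y v u := by
    rintro u v ⟨g, hg, h1, h3⟩ ⟨g', hg', h1', h3'⟩
    apply hyx
    refine ⟨g⁻¹ * g', G.mul_mem (G.inv_mem hg) hg', ?_, ?_⟩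
    · rw [Perm.mul_apply, h1', ← h3, d3_inv]
    · rw [Perm.mul_apply, h3', ← h1, d3_inv]
  have hirr : ∀ u, ¬ d3T G x y u u := fun u h => hanti u u h h
  set a := ∑ v, if d3T G x y x v then 1 else 0 with ha
  set b := ∑ v, if d3T G x y v x then 1 else 0 with hb
  have hout : ∀ z, (∑ v, if d3T G x y z v then 1 else 0) = a := by
    intro z
    obtain ⟨g, hg, rfl⟩ := hG.1 x z
    rw [ha, ← Equiv.sum_comp g (fun v => if d3T G x y (g x) v then 1 else 0)]
    exact Finset.sum_congr rfl fun v _ => by simp only [d3_map_iff hg]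
  have hin : ∀ z, (∑ v, if d3T G x y v z then 1 else 0) = b := by
    intro z
    obtain ⟨g, hg, rfl⟩ := hG.1 x z
    rw [hb, ← Equiv.sum_comp g (fun v => if d3T G x y v (g x) then 1 else 0)]
    exact Finset.sum_congr rfl fun v _ => by simp only [d3_map_iff hg]
  have hab : a + b + 1 = Fintype.card α := by
    have h1 : (∑ v : α, if v = x then 1 else 0) = 1 := by
      rw [Finset.sum_ite_eq' Finset.univ x (fun _ => 1), if_pos (Finset.mem_univ x)]
    have h3 : a + b + ∑ v : α, (if v = x then 1 else 0) = ∑ v : α, 1 := by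
      rw [ha, hb, ← Finset.sum_add_distrib, ← Finset.sum_add_distrib]
      refine Finset.sum_congr rfl fun v _ => ?_
      by_cases hv : v = x
      · rw [hv, if_neg (hirr x), if_pos rfl]
      · rw [if_neg hv]
        rcases hT x v (Ne.symm hv) with h | h
        · rw [if_pos h, if_neg (hanti _ _ h)]
        · rw [if_pos h, if_neg (hanti _ _ h)]
    rw [h1] at h3
    rw [h3, ← Finset.card_eq_sum_ones, Finset.card_univ]
  -- counting the pairs (v, z)
  have hup : (∑ v, ∑ z, if v ≠ x ∧ z ∈ dset G x v then 1 else 0) =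
      (a + b) * (dset G x y).ncard := by
    have h1 : ∀ v, (∑ z, if v ≠ x ∧ z ∈ dset G x v then 1 else 0) =
        if v ≠ x then (dset G x y).ncard else 0 := by
      intro v
      by_cases hv : v = x
      · simp [hv]
      · rw [if_pos hv, ← orb_dset_card G (hall x v (Ne.symm hv)), d3_ncard (dset G x v)]
        exact Finset.sum_congr rfl fun z _ => by simp [hv]
    rw [Finset.sum_congr rfl fun v _ => h1 v, ← Finset.sum_filter, Finset.sum_const, smul_eq_mul]
    congr 1
    have h3 : (Finset.univ.filter fun v : α => v ≠ x) = Finset.univ.erase x := by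
      ext v
      simp
    rw [h3, Finset.card_erase_of_mem (Finset.mem_univ x), Finset.card_univ]
    omega
  have hlow : a * a + b * b ≤ ∑ v, ∑ z, if v ≠ x ∧ z ∈ dset G x v then 1 else 0 := by
    have h1 : a * a + b * b = ∑ z, ∑ v, ((if d3T G x y x z ∧ d3T G x y z v then 1 else 0) +
        (if d3T G x y z x ∧ d3T G x y v z then 1 else 0)) := by
      have h3 : ∀ z, (∑ v, ((if d3T G x y x z ∧ d3T G x y z v then 1 else 0) +
          (if d3T G x y z x ∧ d3T G x y v z then 1 else 0))) =
          (if d3T G x y x z then 1 else 0) * a + (if d3T G x y z x then 1 else 0) * b := by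
        intro z
        rw [Finset.sum_add_distrib]
        congr 1
        · rw [← hout z, Finset.mul_sum]
          exact Finset.sum_congr rfl fun v _ => by
            by_cases h4 : d3T G x y x z <;> simp [h4]
        · rw [← hin z, Finset.mul_sum]
          exact Finset.sum_congr rfl fun v _ => by
            by_cases h4 : d3T G x y z x <;> simp [h4]
      rw [Finset.sum_congr rfl fun z _ => h3 z, Finset.sum_add_distrib, ← Finset.sum_mul,
        ← Finset.sum_mul, ← ha, ← hb]
    rw [h1, Finset.sum_comm]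
    refine Finset.sum_le_sum fun v _ => Finset.sum_le_sum fun z _ => ?_
    by_cases h3 : d3T G x y x z ∧ d3T G x y z v
    · have h4 : ¬ (d3T G x y z x ∧ d3T G x y v z) := fun h => hanti _ _ h3.1 h.1
      have h5 : v ≠ x ∧ z ∈ dset G x v := by
        refine ⟨?_, ?_⟩
        · rintro rfl
          exact hanti _ _ h3.1 h3.2
        · rintro ⟨g, hg, h6, h7⟩
          have h8 := d3_map h3.1 hg
          rw [h6, h7] at h8
          exact hanti _ _ h3.2 h8
      rw [if_pos h3, if_neg h4, if_pos h5]
    · rw [if_neg h3, zero_add]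
      by_cases h4 : d3T G x y z x ∧ d3T G x y v z
      · have h5 : v ≠ x ∧ z ∈ dset G x v := by
          refine ⟨?_, ?_⟩
          · rintro rfl
            exact hanti _ _ h4.1 h4.2
          · rintro ⟨g, hg, h6, h7⟩
            have h8 := d3_map h4.1 hg
            rw [h6, h7] at h8
            exact hanti _ _ h4.2 h8
        rw [if_pos h4, if_pos h5]
      · rw [if_neg h4]
        exact Nat.zero_le _
  rw [hup] at hlow
  rw [Nat.card_eq_fintype_card, ← hab]
  have hpos : 0 < a + b := by
    have h1 : 1 < Fintype.card α := Fintype.one_lt_card_iff.2 ⟨x, y, hxy⟩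
    omega
  have h3 : (a + b) * (a + b) ≤ (a + b) * (2 * (dset G x y).ncard) := by
    have h4 : 2 * (a * b) ≤ a * a + b * b := by
      have h5 : (0 : ℤ) ≤ ((a : ℤ) - b) * ((a : ℤ) - b) := mul_self_nonneg _
      zify
      nlinarith
    nlinarith
  have h4 := Nat.le_of_mul_le_mul_left h3 hpos
  omega

theorem dist_lower {α : Type} [Finite α] (G : Subgroup (Perm α)) (hG : Prim G) (h2 : ¬ Two G)
    {x y : α} (hxy : x ≠ y) : Nat.card α ≤ 2 * (dset G x y).ncard ^ 2 + 1 := by
  by_contra hcon
  push Not at hcon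
  set δ := (dset G x y).ncard with hδ
  have h1 := dist_one G hG hxy x
  rw [← hδ] at h1
  set k := ((orb G x y).neighborSet x).ncard with hk
  have hpos : 0 < δ := by
    rcases Nat.eq_zero_or_pos δ with h | h
    · rw [h] at h1 hcon
      omega
    · exact h
  have hkd : 2 * δ < k := by
    have h3 : 2 * δ * δ < k * δ := by
      have : 2 * δ ^ 2 = 2 * δ * δ := by ring
      omega
    exact lt_of_mul_lt_mul_right h3 (Nat.zero_le δ)
  obtain ⟨h3, h4⟩ := dist_two G hG hxy x hkd.le
  rw [← hδ] at h3 h4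
  by_cases hz : ∃ z, z ≠ x ∧ ¬ (orb G x y).Adj x z
  · obtain ⟨z, hzx, hz⟩ := hz
    have h5 := dist_one G hG hzx.symm x
    have h6 := h4 z hzx hz
    have h7 : ((orb G x z).neighborSet x).ncard ≤ δ := by
      refine le_trans (Set.ncard_le_ncard ?_ (Set.toFinite _)) h3
      rintro z' ⟨hne, g, hg, ⟨e1, e2⟩ | ⟨e1, e2⟩⟩
      · refine ⟨hne.symm, fun hadj => hz ?_⟩
        have h8 : (orb G x y).Adj (g x) (g z) := by rwa [e1, e2]
        exact (orb_inv G hg x y x z).1 h8
      · refine ⟨hne.symm, fun hadj => hz ?_⟩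
        have h8 : (orb G x y).Adj (g z) (g x) := by rwa [e1, e2]
        exact ((orb_inv G hg x y z x).1 h8).symm
    have h8 : ((orb G x z).neighborSet x).ncard * (dset G x z).ncard ≤ δ * (2 * δ) :=
      Nat.mul_le_mul h7 h6
    have h9 : 2 * δ ^ 2 = δ * (2 * δ) := by ring
    omega
  · push Not at hz
    have hall : ∀ u v : α, u ≠ v → (orb G x y).Adj u v := by
      intro u v huv
      obtain ⟨g, hg, rfl⟩ := hG.1 x u
      have h5 : (orb G x y).Adj x (g⁻¹ v) := by
        apply hz
        intro h6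
        apply huv
        rw [← h6, d3_inv2]
      have h6 := (orb_inv G hg x y x (g⁻¹ v)).2 h5
      rwa [d3_inv2] at h6
    have h5 := d3_tour G hG h2 hxy hall
    rw [← hδ] at h5
    have h6 : 2 * δ ≤ 2 * δ ^ 2 := by nlinarith
    omega

end Pool.Agent.Lib.TGX
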