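/-
TGX B.Giant (paper 2.4). If the pointwise stabiliser of every set of less than `t` points has an
orbit with more than `(1 - 1/(2t)) n` points, then for some `t`-set `Δ` every even permutation of
`Δ` is induced by an element of `G`.
PROOF. Choose `a_1, ..., a_t` with `a_{i+1}` in a giant orbit of the pointwise stabiliser `G_i` of
`a_1..a_i` (`i < t`). Then `|G_i : G_{i+1}|` = size of that orbit `> (1 - 1/(2t)) n`, in particular
`> 1` (as `(2t-1) n ≥ 2t - 1 + ... `: `(2t-1) n < 2 t |orbit|` and `n ≥ 2` give `|orbit| ≥ 2`), so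
`a_{i+1}` is not fixed by `G_i` and the `a_i` are distinct. So `2 |G : G_t| ≥ n^t` (real numbers:
`(1 - 1/(2t))^t ≥ 1/2` by Bernoulli, `one_add_mul_le_pow`). Let `Δ = {a_1..a_t}`, `S` = setwise
stabiliser of `Δ` in `G`, `φ : S → Perm Δ` the induced action, `ker φ = G_t`. The `G`-translates of
`Δ` are `t`-subsets: `|G : S| ≤ C(n,t)`. So `|φ(S)| = |S : G_t| = |G : G_t| / |G : S|`,
`2 |φ(S)| C(n,t) ≥ n^t ≥ n (n-1) ... (n-t+1) = t! C(n,t)`, `2 |φ(S)| ≥ t! = |Perm Δ|`, the index of
`φ(S)` in `Perm Δ` is at most 2 and `φ(S)` contains the alternating group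
(`Equiv.Perm.alternatingGroup_le_of_index_le_two`).
-/
import Pool.Agent.Lib.TGX.B.DefsB

namespace Pool.Agent.Lib.TGX

open Equiv

/-- the pointwise stabiliser -/
private def gP {α : Type} (G : Subgroup (Perm α)) (Δ : Finset α) : Subgroup (Perm α) where
  carrier := {g | g ∈ G ∧ ∀ z ∈ Δ, g z = z}
  mul_mem' := by
    rintro a b ⟨ha, ha'⟩ ⟨hb, hb'⟩
    refine ⟨G.mul_mem ha hb, fun z hz => ?_⟩
    rw [Perm.mul_apply, hb' z hz, ha' z hz]
  one_mem' := ⟨G.one_mem, fun _ _ => rfl⟩
  inv_mem' := by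
    rintro a ⟨ha, ha'⟩
    refine ⟨G.inv_mem ha, fun z hz => ?_⟩
    rw [Perm.inv_eq_iff_eq, ha' z hz]

private theorem mem_gP {α : Type} {G : Subgroup (Perm α)} {Δ : Finset α} {g : Perm α} :
    g ∈ gP G Δ ↔ g ∈ G ∧ ∀ z ∈ Δ, g z = z := Iff.rfl

/-- the permutations of `Δ` induced by `G` -/
private def gK {α : Type} (G : Subgroup (Perm α)) (Δ : Finset α) : Subgroup (Perm Δ) where
  carrier := {σ | ∃ g ∈ G, ∀ z : Δ, g z = σ z}
  mul_mem' := by
    rintro a b ⟨g, hg, h⟩ ⟨g', hg', h'⟩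
    exact ⟨g * g', G.mul_mem hg hg', fun z => by rw [Perm.mul_apply, h' z, h (b z)]; rfl⟩
  one_mem' := ⟨1, G.one_mem, fun z => rfl⟩
  inv_mem' := by
    rintro a ⟨g, hg, h⟩
    refine ⟨g⁻¹, G.inv_mem hg, fun z => ?_⟩
    rw [Perm.inv_eq_iff_eq, h (a⁻¹ z)]
    exact congrArg Subtype.val (a.apply_symm_apply z).symm

private theorem mem_gK {α : Type} {G : Subgroup (Perm α)} {Δ : Finset α} {σ : Perm Δ} :
    σ ∈ gK G Δ ↔ ∃ g ∈ G, ∀ z : Δ, g z = σ z := Iff.rfl

private theorem card_gP {α : Type} [Fintype α] [DecidableEq α] (G : Subgroup (Perm α))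
    (Δ : Finset α) (x : α) :
    Nat.card (gP G Δ) = Nat.card (gP G (insert x Δ)) * (sorb G Δ x).ncard := by
  rw [← Subgroup.card_mul_index (MulAction.stabilizer (gP G Δ) x), MulAction.index_stabilizer]
  congr 1
  · refine Nat.card_congr ⟨fun g => ⟨(g : gP G Δ), ?_⟩, fun g => ⟨⟨g, ?_⟩, ?_⟩, ?_, ?_⟩
    · have h1 := g.1.2
      have h2 : (g : gP G Δ) • x = x := g.2
      rw [mem_gP] at h1 ⊢
      refine ⟨h1.1, fun z hz => ?_⟩
      rcases Finset.mem_insert.1 hz with h | h
      · rw [h]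
        exact h2
      · exact h1.2 z h
    · have h1 := g.2
      rw [mem_gP] at h1 ⊢
      exact ⟨h1.1, fun z hz => h1.2 z (Finset.mem_insert_of_mem hz)⟩
    · have h1 := g.2
      rw [mem_gP] at h1
      rw [MulAction.mem_stabilizer_iff]
      exact h1.2 x (Finset.mem_insert_self x Δ)
    · intro g
      rfl
    · intro g
      rfl
  · congr 1
    ext y
    constructor
    · rintro ⟨g, hg⟩
      exact ⟨g, (mem_gP.1 g.2).1, (mem_gP.1 g.2).2, hg⟩
    · rintro ⟨g, hg, hz, hy⟩
      exact ⟨⟨g, mem_gP.2 ⟨hg, hz⟩⟩, hy⟩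

private theorem bern (t : ℕ) (ht : 1 ≤ t) : (2 * t) ^ t ≤ 2 * (2 * t - 1) ^ t := by
  have h := one_add_mul_le_pow (a := -(1 / (2 * (t : ℝ)))) (by
    have : (1:ℝ) ≤ t := by exact_mod_cast ht
    have h2 : 1 / (2 * (t:ℝ)) ≤ 1 := by
      rw [div_le_one (by positivity)]
      linarith
    linarith) t
  have ht' : (1:ℝ) ≤ t := by exact_mod_cast ht
  have ht0 : (0:ℝ) < 2 * t := by positivity
  have h1 : (1:ℝ) + t * -(1 / (2 * (t:ℝ))) = 1 / 2 := by
    field_simp
    ring
  have h2 : (1:ℝ) + -(1 / (2 * (t:ℝ))) = (2 * t - 1) / (2 * t) := by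
    field_simp
    ring
  rw [h1, h2, div_pow, le_div_iff₀ (by positivity)] at h
  have h3 : ((2 * t : ℕ) : ℝ) ^ t ≤ 2 * ((2 * t - 1 : ℕ) : ℝ) ^ t := by
    rw [Nat.cast_sub (by omega)]
    push_cast
    linarith
  exact_mod_cast h3

/-- the chain of points -/
private theorem chain {α : Type} [Fintype α] [DecidableEq α] (G : Subgroup (Perm α)) (t : ℕ)
    (ht : 1 ≤ t) (hn : 2 ≤ Fintype.card α)
    (H : ∀ Δ : Finset α, Δ.card < t →
      ∃ x : α, (2 * t - 1) * Fintype.card α < 2 * t * (sorb G Δ x).ncard) (i : ℕ) (hi : i ≤ t) :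
    ∃ Δ : Finset α, Δ.card = i ∧
      ((2 * t - 1) * Fintype.card α) ^ i * Nat.card (gP G Δ) ≤ (2 * t) ^ i * Nat.card G := by
  induction i with
  | zero =>
    refine ⟨∅, rfl, ?_⟩
    rw [pow_zero, pow_zero, one_mul, one_mul]
    have h : gP G ∅ = G := by
      ext g
      rw [mem_gP]
      simp
    rw [h]
  | succ i ih =>
    obtain ⟨Δ, hΔ, hc⟩ := ih (by omega)
    obtain ⟨x, hx⟩ := H Δ (by omega)
    have hxΔ : x ∉ Δ := by
      intro h
      have h1 : sorb G Δ x ⊆ {x} := by
        rintro y ⟨g, _, hz, hy⟩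
        rw [Set.mem_singleton_iff, ← hy, hz x h]
      have h2 := Set.ncard_le_ncard h1 (Set.finite_singleton x)
      rw [Set.ncard_singleton] at h2
      have h3 : 2 * t * (sorb G Δ x).ncard ≤ 2 * t * 1 := Nat.mul_le_mul_left _ h2
      have h4 : (2 * t - 1) * 2 ≤ (2 * t - 1) * Fintype.card α := Nat.mul_le_mul_left _ hn
      omega
    refine ⟨insert x Δ, by rw [Finset.card_insert_of_notMem hxΔ, hΔ], ?_⟩
    rw [card_gP G Δ x] at hc
    calc ((2 * t - 1) * Fintype.card α) ^ (i + 1) * Nat.card (gP G (insert x Δ))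
        = ((2 * t - 1) * Fintype.card α) ^ i * Nat.card (gP G (insert x Δ)) *
          ((2 * t - 1) * Fintype.card α) := by ring
      _ ≤ ((2 * t - 1) * Fintype.card α) ^ i * Nat.card (gP G (insert x Δ)) *
          (2 * t * (sorb G Δ x).ncard) := Nat.mul_le_mul_left _ hx.le
      _ = 2 * t * (((2 * t - 1) * Fintype.card α) ^ i *
          (Nat.card (gP G (insert x Δ)) * (sorb G Δ x).ncard)) := by ring
      _ ≤ 2 * t * ((2 * t) ^ i * Nat.card G) := Nat.mul_le_mul_left _ hc
      _ = (2 * t) ^ (i + 1) * Nat.card G := by ring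

open Classical in
/-- `|G| ≤ C(n,t) |K| |P|` -/
private theorem upper {α : Type} [Fintype α] [DecidableEq α] (G : Subgroup (Perm α))
    (Δ : Finset α) :
    Nat.card G ≤ Nat.card (gP G Δ) * Nat.card (gK G Δ) *
      (Fintype.card α).choose Δ.card := by
  have hc : ∀ {β : Type} [Fintype β] [DecidableEq β] (K : Subgroup (Perm β)),
      Nat.card K = (Finset.univ.filter fun g : Perm β => g ∈ K).card := by
    intro β _ _ K
    rw [Nat.card_eq_fintype_card, Fintype.card_subtype]
  set S : Finset (Perm α) := Finset.univ.filter fun g => g ∈ G ∧ Δ.map g.toEmbedding = Δ with hS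
  have h1 : (Finset.univ.filter fun g : Perm α => g ∈ G).card ≤
      S.card * (Finset.univ.powersetCard Δ.card : Finset (Finset α)).card := by
    refine Finset.card_le_mul_card_image_of_maps_to
      (f := fun g : Perm α => Δ.map g.toEmbedding) ?_ _ ?_
    · intro g _
      rw [Finset.mem_powersetCard_univ, Finset.card_map]
    · intro Δ' _
      by_cases he : ∃ g0 ∈ G, Δ.map g0.toEmbedding = Δ'
      · obtain ⟨g0, hg0, h0⟩ := he
        refine Finset.card_le_card_of_injOn (fun g => g0⁻¹ * g) ?_ ?_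
        · intro g hg
          rw [Finset.mem_coe, Finset.mem_filter, Finset.mem_filter] at hg
          obtain ⟨⟨_, hg⟩, hg'⟩ := hg
          rw [Finset.mem_coe, hS, Finset.mem_filter]
          refine ⟨Finset.mem_univ _, G.mul_mem (G.inv_mem hg0) hg, ?_⟩
          have h2 : Δ.map (g0⁻¹ * g).toEmbedding = (Δ.map g.toEmbedding).map g0⁻¹.toEmbedding := by
            rw [Finset.map_map]
            rfl
          rw [h2, hg', ← h0, Finset.map_map]
          have h3 : g0.toEmbedding.trans g0⁻¹.toEmbedding = Function.Embedding.refl α := by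
            ext z
            change g0⁻¹ (g0 z) = z
            exact g0.symm_apply_apply z
          rw [h3, Finset.map_refl]
        · intro g _ g' _ h
          exact mul_left_cancel h
      · rw [Finset.card_eq_zero.2]
        · exact Nat.zero_le _
        · refine Finset.filter_eq_empty_iff.2 fun g hg h => he ⟨g, ?_, h⟩
          exact (Finset.mem_filter.1 hg).2
  have hmem : ∀ g ∈ S, ∀ z : Δ, g z ∈ Δ := by
    intro g hg z
    have h2 := (Finset.mem_filter.1 hg).2.2
    have h3 := Finset.mem_map_of_mem g.toEmbedding z.2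
    rw [h2] at h3
    exact h3
  let res : Perm α → Perm Δ := fun g =>
    if h : ∀ z : α, g z ∈ Δ ↔ z ∈ Δ then g.subtypePerm h else 1
  have hres : ∀ g ∈ S, ∀ z : Δ, ((res g z : Δ) : α) = g z := by
    intro g hg z
    have h2 : ∀ z : α, g z ∈ Δ ↔ z ∈ Δ := by
      intro z
      refine ⟨fun hz => ?_, fun hz => hmem g hg ⟨z, hz⟩⟩
      have h3 := (Finset.mem_filter.1 hg).2.2
      rw [← h3, Finset.mem_map] at hz
      obtain ⟨w, hw, hw'⟩ := hz
      have : w = z := g.injective hw'
      rwa [← this]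
    change (((if h : ∀ z : α, g z ∈ Δ ↔ z ∈ Δ then g.subtypePerm h else 1 : Perm Δ) z : Δ) : α) = _
    rw [dif_pos h2]
    rfl
  have h2 : S.card ≤ (Finset.univ.filter fun g : Perm α => g ∈ gP G Δ).card *
      (Finset.univ.filter fun g : Perm Δ => g ∈ gK G Δ).card := by
    refine Finset.card_le_mul_card_image_of_maps_to (f := res) ?_ _ ?_
    · intro g hg
      rw [Finset.mem_filter, mem_gK]
      exact ⟨Finset.mem_univ _, g, (Finset.mem_filter.1 hg).2.1, fun z => (hres g hg z).symm⟩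
    · intro σ _
      by_cases he : ∃ g0 ∈ S, res g0 = σ
      · obtain ⟨g0, hg0, h0⟩ := he
        refine Finset.card_le_card_of_injOn (fun g => g0⁻¹ * g) ?_ ?_
        · intro g hg
          rw [Finset.mem_coe, Finset.mem_filter] at hg
          obtain ⟨hg, hg'⟩ := hg
          rw [Finset.mem_coe, Finset.mem_filter, mem_gP]
          refine ⟨Finset.mem_univ _, G.mul_mem (G.inv_mem (Finset.mem_filter.1 hg0).2.1)
            (Finset.mem_filter.1 hg).2.1, fun z hz => ?_⟩
          rw [Perm.mul_apply, Perm.inv_eq_iff_eq]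
          have h3 := hres g hg ⟨z, hz⟩
          have h4 := hres g0 hg0 ⟨z, hz⟩
          rw [hg'] at h3
          rw [h0] at h4
          exact h3.symm.trans h4
        · intro g _ g' _ h
          exact mul_left_cancel h
      · rw [Finset.card_eq_zero.2]
        · exact Nat.zero_le _
        · exact Finset.filter_eq_empty_iff.2 fun g hg h => he ⟨g, hg, h⟩
  rw [hc G, hc (gP G Δ), hc (gK G Δ)]
  refine h1.trans ?_
  rw [Finset.card_powersetCard, Finset.card_univ]
  exact Nat.mul_le_mul_right _ h2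

theorem giant {α : Type} [Fintype α] [DecidableEq α] (G : Subgroup (Perm α)) (t : ℕ) (ht : 1 ≤ t)
    (hn : 2 ≤ Fintype.card α)
    (H : ∀ Δ : Finset α, Δ.card < t →
      ∃ x : α, (2 * t - 1) * Fintype.card α < 2 * t * (sorb G Δ x).ncard) :
    ∃ Δ : Finset α, Δ.card = t ∧
      ∀ σ : Perm Δ, σ ∈ alternatingGroup Δ → ∃ g ∈ G, ∀ z : Δ, g z = σ z := by
  obtain ⟨Δ, hΔ, hc⟩ := chain G t ht hn H t le_rfl
  refine ⟨Δ, hΔ, fun σ hσ => ?_⟩
  have hP : 0 < Nat.card (gP G Δ) := Nat.card_pos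
  have hC : 0 < (Fintype.card α).choose t := by
    refine Nat.choose_pos ?_
    rw [← hΔ]
    exact Finset.card_le_univ Δ
  have h1 : Fintype.card α ^ t * Nat.card (gP G Δ) ≤ 2 * Nat.card G := by
    have h2 := bern t ht
    have h3 : 0 < (2 * t) ^ t := by positivity
    refine Nat.le_of_mul_le_mul_left ?_ h3
    calc (2 * t) ^ t * (Fintype.card α ^ t * Nat.card (gP G Δ))
        ≤ 2 * (2 * t - 1) ^ t * (Fintype.card α ^ t * Nat.card (gP G Δ)) :=
          Nat.mul_le_mul_right _ h2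
      _ = 2 * (((2 * t - 1) * Fintype.card α) ^ t * Nat.card (gP G Δ)) := by
          rw [mul_pow]
          ring
      _ ≤ 2 * ((2 * t) ^ t * Nat.card G) := Nat.mul_le_mul_left _ hc
      _ = (2 * t) ^ t * (2 * Nat.card G) := by ring
  have h2 := upper G Δ
  rw [hΔ] at h2
  have h3 : t.factorial * (Fintype.card α).choose t ≤ Fintype.card α ^ t := by
    rw [← Nat.descFactorial_eq_factorial_mul_choose]
    exact Nat.descFactorial_le_pow _ _
  have h4 : t.factorial ≤ 2 * Nat.card (gK G Δ) := by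
    refine Nat.le_of_mul_le_mul_right ?_ (Nat.mul_pos hC hP)
    calc t.factorial * ((Fintype.card α).choose t * Nat.card (gP G Δ))
        = t.factorial * (Fintype.card α).choose t * Nat.card (gP G Δ) := by ring
      _ ≤ Fintype.card α ^ t * Nat.card (gP G Δ) := Nat.mul_le_mul_right _ h3
      _ ≤ 2 * Nat.card G := h1
      _ ≤ 2 * (Nat.card (gP G Δ) * Nat.card (gK G Δ) * (Fintype.card α).choose t) :=
          Nat.mul_le_mul_left _ h2
      _ = 2 * Nat.card (gK G Δ) * ((Fintype.card α).choose t * Nat.card (gP G Δ)) := by ring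
  have h5 : (gK G Δ).index ≤ 2 := by
    have h6 := Subgroup.card_mul_index (gK G Δ)
    have h7 : Nat.card (Perm Δ) = t.factorial := by
      rw [Nat.card_eq_fintype_card, Fintype.card_perm, Fintype.card_coe, hΔ]
    rw [h7] at h6
    have h8 : 0 < Nat.card (gK G Δ) := Nat.card_pos
    refine Nat.le_of_mul_le_mul_left ?_ h8
    rw [h6]
    linarith
  exact Equiv.Perm.alternatingGroup_le_of_index_le_two h5 hσ

end Pool.Agent.Lib.TGX
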