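/-
TGX B.Greedy. Greedy choice of separating tests.
`ι` = finite set of tests; if every pair `x ≠ y` is separated by at least `|ι| / q` tests, then
`2 q lg |α|` tests separate all pairs.
PROOF. For a finite set `s` of tests let `U s` be the number of ordered pairs `x ≠ y` separated by no
member of `s`. Averaging over `i : ι` there is `i` with `q * U (insert i s) ≤ (q - 1) * U s`
(sum over `i` of the number of pairs counted by `U s` separated by `i` is at least `U s * |ι| / q`).
So there are sets `s_k` with at most `k` elements and `U s_k ≤ n² (1 - 1/q)^k` (real numbers), and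
`(1 - 1/q)^q ≤ 1/2` (`(1 - 1/q)^q ≤ exp (-1)`, `Real.one_sub_div_pow_le_exp_neg` or
`Real.add_one_le_exp`), so with `k = 2 q lg n`: `U s_k ≤ n² / 2^(2 lg n) < 1` since `n < 2 ^ lg n`
(`lt_lg`); so `U s_k = 0`. (`n = 0`: trivial.)
-/
import Pool.Agent.Lib.TGX.Defs

namespace Pool.Agent.Lib.TGX

private theorem greedy_pow_aux (p : ℕ) : ∀ m : ℕ, p ^ m * (p + m) ≤ p * (p + 1) ^ m := by
  intro m
  induction m with
  | zero => simp
  | succ m ih =>
    calc p ^ (m + 1) * (p + (m + 1)) = p ^ m * (p * p + p * m + p) := by ring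
      _ ≤ p ^ m * (p * p + p * m + p + m) := Nat.mul_le_mul_left _ (Nat.le_add_right _ _)
      _ = (p + 1) * (p ^ m * (p + m)) := by ring
      _ ≤ (p + 1) * (p * (p + 1) ^ m) := Nat.mul_le_mul_left _ ih
      _ = p * (p + 1) ^ (m + 1) := by ring

private theorem greedy_pow (q : ℕ) (hq : 1 ≤ q) : 2 * (q - 1) ^ q ≤ q ^ q := by
  obtain ⟨p, rfl⟩ : ∃ p, q = p + 1 := ⟨q - 1, by omega⟩
  rw [Nat.add_sub_cancel]
  rcases Nat.eq_zero_or_pos p with rfl | hp
  · simp
  have h := greedy_pow_aux p (p + 1)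
  have h2 : p * (2 * p ^ (p + 1)) ≤ p * (p + 1) ^ (p + 1) := by
    refine le_trans ?_ h
    calc p * (2 * p ^ (p + 1)) = p ^ (p + 1) * (2 * p) := by ring
      _ ≤ p ^ (p + 1) * (p + (p + 1)) := Nat.mul_le_mul_left _ (by omega)
  exact Nat.le_of_mul_le_mul_left h2 hp

private theorem greedy_lt (q n : ℕ) (hq : 1 ≤ q) :
    n ^ 2 * (q - 1) ^ (2 * q * lg n) < q ^ (2 * q * lg n) := by
  have e1 : 2 * q * lg n = q * (2 * lg n) := by ring
  have e2 : (q - 1) ^ (2 * q * lg n) = ((q - 1) ^ q) ^ (2 * lg n) := by rw [e1, pow_mul]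
  have e3 : q ^ (2 * q * lg n) = (q ^ q) ^ (2 * lg n) := by rw [e1, pow_mul]
  rw [e2, e3]
  have h1 : (2 * (q - 1) ^ q) ^ (2 * lg n) ≤ (q ^ q) ^ (2 * lg n) :=
    Nat.pow_le_pow_left (greedy_pow q hq) _
  rcases Nat.eq_zero_or_pos (((q - 1) ^ q) ^ (2 * lg n)) with h0 | h0
  · rw [h0, mul_zero]
    exact Nat.pos_of_ne_zero (pow_ne_zero _ (pow_ne_zero _ (by omega)))
  · refine lt_of_lt_of_le ?_ h1
    rw [mul_pow]
    refine Nat.mul_lt_mul_of_pos_right ?_ h0
    rw [mul_comm 2 (lg n), pow_mul]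
    exact Nat.pow_lt_pow_left (lt_lg n) (by norm_num)

open Classical in
private noncomputable def greedyU {α ι : Type} [Fintype α] (sep : ι → α → α → Prop)
    (s : Finset ι) : Finset (α × α) :=
  Finset.univ.filter fun p => p.1 ≠ p.2 ∧ ∀ i ∈ s, ¬ sep i p.1 p.2

private theorem greedyU_mem {α ι : Type} [Fintype α] {sep : ι → α → α → Prop}
    {s : Finset ι} {p : α × α} :
    p ∈ greedyU sep s ↔ p.1 ≠ p.2 ∧ ∀ i ∈ s, ¬ sep i p.1 p.2 := by
  unfold greedyU
  simp

private theorem greedy_step {α ι : Type} [Fintype α] [Fintype ι] [Nonempty ι]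
    (sep : ι → α → α → Prop) (q : ℕ) (hq : 1 ≤ q)
    (h : ∀ x y, x ≠ y → Fintype.card ι ≤ q * Nat.card {i : ι // sep i x y})
    (s : Finset ι) : ∃ s' : Finset ι, s'.card ≤ s.card + 1 ∧
      (greedyU sep s').card * q ≤ (greedyU sep s).card * (q - 1) := by
  classical
  by_contra hcon
  push Not at hcon
  have h1 : ∀ i : ι, (greedyU sep s).card * (q - 1) < (greedyU sep (insert i s)).card * q :=
    fun i => hcon _ (Finset.card_insert_le i s)
  have h2 : ∀ i : ι, (greedyU sep s).card = (greedyU sep (insert i s)).card +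
      ((greedyU sep s).filter fun p => sep i p.1 p.2).card := by
    intro i
    have e1 : greedyU sep (insert i s) = (greedyU sep s).filter fun p => ¬ sep i p.1 p.2 := by
      ext p
      rw [Finset.mem_filter, greedyU_mem, greedyU_mem]
      simp only [Finset.mem_insert, forall_eq_or_imp]
      tauto
    rw [e1, add_comm]
    exact (Finset.card_filter_add_card_filter_not _).symm
  have h3 : ∀ i : ι, q * ((greedyU sep s).filter fun p => sep i p.1 p.2).card <
      (greedyU sep s).card := by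
    intro i
    have a1 := h1 i
    have a2 := h2 i
    obtain ⟨p, rfl⟩ : ∃ p, q = p + 1 := ⟨q - 1, by omega⟩
    rw [Nat.add_sub_cancel] at a1
    set u := (greedyU sep s).card
    set v := (greedyU sep (insert i s)).card
    set w := ((greedyU sep s).filter fun p => sep i p.1 p.2).card
    rw [a2] at a1 ⊢
    nlinarith
  have h4 : ∑ i : ι, q * ((greedyU sep s).filter fun p => sep i p.1 p.2).card <
      ∑ _i : ι, (greedyU sep s).card :=
    Finset.sum_lt_sum_of_nonempty Finset.univ_nonempty fun i _ => h3 i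
  rw [Finset.sum_const, Finset.card_univ, smul_eq_mul] at h4
  have h5 : Fintype.card ι * (greedyU sep s).card ≤
      ∑ i : ι, q * ((greedyU sep s).filter fun p => sep i p.1 p.2).card := by
    have e1 : ∑ i : ι, q * ((greedyU sep s).filter fun p => sep i p.1 p.2).card =
        ∑ p ∈ greedyU sep s, q * (Finset.univ.filter fun i : ι => sep i p.1 p.2).card := by
      simp only [Finset.card_filter, Finset.mul_sum]
      exact Finset.sum_comm
    rw [e1, mul_comm, ← smul_eq_mul, ← Finset.sum_const]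
    refine Finset.sum_le_sum fun p hp => ?_
    rw [greedyU_mem] at hp
    have h6 := h p.1 p.2 hp.1
    rw [Nat.card_eq_fintype_card, Fintype.card_subtype] at h6
    exact h6
  omega

private theorem greedy_iter {α ι : Type} [Fintype α] [Fintype ι] [Nonempty ι]
    (sep : ι → α → α → Prop) (q : ℕ) (hq : 1 ≤ q)
    (h : ∀ x y, x ≠ y → Fintype.card ι ≤ q * Nat.card {i : ι // sep i x y}) :
    ∀ k : ℕ, ∃ s : Finset ι, s.card ≤ k ∧
      (greedyU sep s).card * q ^ k ≤ (Fintype.card α) ^ 2 * (q - 1) ^ k := by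
  classical
  intro k
  induction k with
  | zero =>
    refine ⟨∅, by simp, ?_⟩
    rw [pow_zero, pow_zero, mul_one, mul_one, sq, ← Fintype.card_prod]
    exact Finset.card_le_univ _
  | succ k ih =>
    obtain ⟨s, h1, h2⟩ := ih
    obtain ⟨s', h3, h4⟩ := greedy_step sep q hq h s
    refine ⟨s', by omega, ?_⟩
    calc (greedyU sep s').card * q ^ (k + 1) = ((greedyU sep s').card * q) * q ^ k := by ring
      _ ≤ ((greedyU sep s).card * (q - 1)) * q ^ k := Nat.mul_le_mul_right _ h4
      _ = ((greedyU sep s).card * q ^ k) * (q - 1) := by ring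
      _ ≤ ((Fintype.card α) ^ 2 * (q - 1) ^ k) * (q - 1) := Nat.mul_le_mul_right _ h2
      _ = (Fintype.card α) ^ 2 * (q - 1) ^ (k + 1) := by ring

theorem exists_sep {α ι : Type} [Fintype α] [Fintype ι] [Nonempty ι] (sep : ι → α → α → Prop)
    (q : ℕ) (hq : 1 ≤ q)
    (h : ∀ x y, x ≠ y → Fintype.card ι ≤ q * Nat.card {i : ι // sep i x y}) :
    ∃ s : Finset ι, s.card ≤ 2 * q * lg (Fintype.card α) ∧
      ∀ x y, x ≠ y → ∃ i ∈ s, sep i x y := by
  classical
  obtain ⟨s, h1, h2⟩ := greedy_iter sep q hq h (2 * q * lg (Fintype.card α))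
  refine ⟨s, h1, ?_⟩
  intro x y hxy
  by_contra hcon
  push Not at hcon
  have h3 : (x, y) ∈ greedyU sep s := by
    rw [greedyU_mem]
    exact ⟨hxy, hcon⟩
  have h4 : 1 ≤ (greedyU sep s).card := Finset.card_pos.2 ⟨_, h3⟩
  have h5 := greedy_lt q (Fintype.card α) hq
  have h6 : 1 * q ^ (2 * q * lg (Fintype.card α)) ≤
      (greedyU sep s).card * q ^ (2 * q * lg (Fintype.card α)) := Nat.mul_le_mul_right _ h4
  rw [one_mul] at h6
  exact absurd (lt_of_le_of_lt (le_trans h6 h2) h5) (lt_irrefl _)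

end Pool.Agent.Lib.TGX
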