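/-
TGX B.MinOne (paper 2.2). `G` doubly transitive, not containing the alternating group, `1 ≠ g ∈ G`,
`μ = |supp g|`: then `n - 1 ≤ (μ - 1)²`.
PROOF. `Γ = supp g`; for `x ∈ G` the conjugate `x g x⁻¹` has support `x Γ`, and
`|Γ ∩ xΓ| = X(x) := #{d ∈ Γ : x d ∈ Γ}`. Suppose `(μ-1)² < n - 1` (so `n ≥ 2`). If some `x` has
`X(x) = 1`, then the commutator of `g` and `x g x⁻¹` is a 3-cycle (`commutator_three`) in `G`; `G` is
preprimitive (2-transitive: `MulAction.isPreprimitive_of_is_two_pretransitive`,
`MulAction.is_two_pretransitive_iff`), so `G` contains the alternating group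
(`Equiv.Perm.alternatingGroup_le_of_isPreprimitive_of_isThreeCycle_mem`): contradiction. So
`X(x) ≠ 1`, `X(x) ≤ X(x) (X(x) - 1)` for all `x`; sum: `|G| μ² (n-1) ≤ |G| μ² (μ-1)²` by
`sum_inter`, `sum_inter_two` (multiplied by `n (n-1)`), `μ ≥ 1`. Contradiction.
-/
import Pool.Agent.Lib.TGX.B.Comm
import Pool.Agent.Lib.TGX.B.CountT

namespace Pool.Agent.Lib.TGX

open Equiv

private theorem MinOne_inter {α : Type} [Fintype α] [DecidableEq α] (g x : Perm α) :
    (g.support ∩ (x * g * x⁻¹).support).card =
      (g.support.filter fun d => x d ∈ g.support).card := by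
  have h : g.support ∩ (x * g * x⁻¹).support =
      (g.support.filter fun d => x d ∈ g.support).map x.toEmbedding := by
    rw [Perm.support_conj]
    ext y
    simp only [Finset.mem_inter, Finset.mem_map, Finset.mem_filter, Equiv.coe_toEmbedding]
    constructor
    · rintro ⟨h, d, hd, rfl⟩
      exact ⟨d, ⟨hd, h⟩, rfl⟩
    · rintro ⟨d, ⟨hd, h⟩, rfl⟩
      exact ⟨h, d, hd, rfl⟩
  rw [h, Finset.card_map]

private theorem MinOne_prim {α : Type} [Fintype α] [DecidableEq α] (G : Subgroup (Perm α))
    (hG : Two G) : MulAction.IsPreprimitive G α := by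
  apply MulAction.isPreprimitive_of_is_two_pretransitive
  rw [MulAction.is_two_pretransitive_iff]
  intro a b c d hab hcd
  obtain ⟨g, hg, h1, h2⟩ := hG a b c d hab hcd
  exact ⟨⟨g, hg⟩, h1, h2⟩

theorem min_one {α : Type} [Fintype α] [DecidableEq α] (G : Subgroup (Perm α)) (hG : Two G)
    (hA : ¬ alternatingGroup α ≤ G) {g : Perm α} (hg : g ∈ G) (h1 : g ≠ 1) :
    Fintype.card α ≤ (g.support.card - 1) ^ 2 + 1 := by
  by_contra hlt
  have hlt' : (g.support.card - 1) ^ 2 + 1 < Fintype.card α := not_le.1 hlt
  have : Fintype G := Fintype.ofFinite G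
  have hn : 2 ≤ Fintype.card α := by omega
  have hμ : 0 < g.support.card := by
    rw [Finset.card_pos, Finset.nonempty_iff_ne_empty]
    intro h
    exact h1 (Perm.support_eq_empty_iff.1 h)
  have hX1 : ∀ x : G, (g.support.filter fun d => (x : Perm α) d ∈ g.support).card ≠ 1 := by
    intro x hx
    apply hA
    have h3 := commutator_three g ((x : Perm α) * g * (x : Perm α)⁻¹) (by
      rw [MinOne_inter, hx])
    refine Perm.alternatingGroup_le_of_isPreprimitive_of_isThreeCycle_mem
      (MinOne_prim G hG) h3 ?_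
    have hx' : (x : Perm α) * g * (x : Perm α)⁻¹ ∈ G :=
      G.mul_mem (G.mul_mem x.2 hg) (G.inv_mem x.2)
    exact G.mul_mem (G.mul_mem (G.mul_mem hg hx') (G.inv_mem hg)) (G.inv_mem hx')
  have hX : ∀ x : G, (g.support.filter fun d => (x : Perm α) d ∈ g.support).card ≤
      (g.support.filter fun d => (x : Perm α) d ∈ g.support).card *
      ((g.support.filter fun d => (x : Perm α) d ∈ g.support).card - 1) := by
    intro x
    have h := hX1 x
    generalize (g.support.filter fun d => (x : Perm α) d ∈ g.support).card = k at h ⊢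
    rcases Nat.eq_zero_or_pos k with h0 | h0
    · simp [h0]
    · exact Nat.le_mul_of_pos_right k (by omega)
  have hS := Finset.sum_le_sum (fun x (_ : x ∈ (Finset.univ : Finset G)) => hX x)
  have hA1 := sum_inter G hG g.support hn
  have hA2 := sum_inter_two G hG g.support
  set S1 := ∑ x : G, (g.support.filter fun d => (x : Perm α) d ∈ g.support).card with hS1
  set S2 := ∑ x : G, (g.support.filter fun d => (x : Perm α) d ∈ g.support).card *
      ((g.support.filter fun d => (x : Perm α) d ∈ g.support).card - 1) with hS2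
  have hc : 0 < Nat.card G := Nat.card_pos
  have key : Nat.card G * g.support.card ^ 2 * (Fintype.card α - 1) ≤
      Nat.card G * g.support.card ^ 2 * (g.support.card - 1) ^ 2 := by
    calc Nat.card G * g.support.card ^ 2 * (Fintype.card α - 1)
        = S1 * (Fintype.card α * (Fintype.card α - 1)) := by rw [← hA1]; ring
      _ ≤ S2 * (Fintype.card α * (Fintype.card α - 1)) := Nat.mul_le_mul_right _ hS
      _ = Nat.card G * (g.support.card * (g.support.card - 1)) ^ 2 := hA2
      _ = Nat.card G * g.support.card ^ 2 * (g.support.card - 1) ^ 2 := by ring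
  have hpos : 0 < Nat.card G * g.support.card ^ 2 := by positivity
  have h2 := Nat.le_of_mul_le_mul_left key hpos
  omega

end Pool.Agent.Lib.TGX
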