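/-
TGX B.MinTwo (paper 2.3). `G` doubly transitive of degree `n ≥ 50`, not containing the alternating
group: every `1 ≠ g ∈ G` moves more than `n / 8` points.
PROOF. Let `g ∈ G`, `g ≠ 1` have minimal support `Γ`, `μ = |Γ|`. `min_one`: `49 ≤ (μ-1)²`, `μ ≥ 8`.
For `x ∈ G`: `X(x) = #{d ∈ Γ : x d ∈ Γ}`, `N(x) = #{d ∈ Γ : x d ∈ Γ, x (g d) ∉ Γ}`. If `N(x) > 0`
take such `d`; with `h = x g x⁻¹`, `p = x d`: `p ∈ Γ`, `h p = x g d ∉ Γ`; so the commutator of `g`
and `h` is not 1 (`commutator_ne_one`), it is in `G`, so `μ ≤ |supp| ≤ 3 |Γ ∩ xΓ| = 3 X(x)`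
(`commutator_supp`). So in all cases `μ N(x) ≤ μ X(x) ≤ 3 X(x)²` if `N(x) > 0`, and
`μ N(x) ≤ 3 X(x)²` always. Sum over `G` and multiply by `n (n-1)`, with
`X² = X + X (X-1)`: by `sum_out`, `sum_inter`, `sum_inter_two`
`μ * μ² (n - μ) ≤ 3 (μ² (n-1) + μ² (μ-1)²)`, i.e. `μ (n - μ) ≤ 3 (n-1) + 3 (μ-1)²`. If `8 μ ≤ n`:
`μ (n - μ) ≥ 7 μ n / 8` and `3 (n - 1) + 3 (μ-1)² ≤ 3 n + 3 μ n / 8`, so `μ n / 2 ≤ 3 n`, `μ ≤ 6`:
contradiction. So `n < 8 μ`.
-/
import Pool.Agent.Lib.TGX.B.MinOne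

namespace Pool.Agent.Lib.TGX

open Equiv

private theorem MinTwo_arith {g μ n A B C : ℕ} (hg : 0 < g) (h8 : 8 ≤ μ) (hn : 8 * μ ≤ n)
    (hA : A * n = g * μ ^ 2) (hB : B * (n * (n - 1)) = g * (μ * (μ - 1)) ^ 2)
    (hC : C * (n * (n - 1)) = g * (μ * (μ * (n - μ)))) (hS : μ * C ≤ 3 * (A + B)) : False := by
  have h1 : μ * C * (n * (n - 1)) ≤ 3 * (A + B) * (n * (n - 1)) := Nat.mul_le_mul_right _ hS
  have h2 : μ * C * (n * (n - 1)) = g * μ ^ 2 * (μ * (n - μ)) := by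
    rw [mul_assoc, hC]
    ring
  have h3 : 3 * (A + B) * (n * (n - 1)) = g * μ ^ 2 * (3 * (n - 1) + 3 * (μ - 1) ^ 2) := by
    have h : 3 * (A + B) * (n * (n - 1)) = 3 * (A * n * (n - 1) + B * (n * (n - 1))) := by ring
    rw [h, hA, hB]
    ring
  rw [h2, h3] at h1
  have h4 := Nat.le_of_mul_le_mul_left h1 (by positivity)
  obtain ⟨s, rfl⟩ : ∃ s, μ = s + 8 := ⟨μ - 8, by omega⟩
  obtain ⟨t, rfl⟩ : ∃ t, n = 8 * (s + 8) + t := ⟨n - 8 * (s + 8), by omega⟩
  have e1 : 8 * (s + 8) + t - (s + 8) = 7 * s + 56 + t := by omega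
  have e2 : 8 * (s + 8) + t - 1 = 8 * s + 63 + t := by omega
  have e3 : s + 8 - 1 = s + 7 := by omega
  rw [e1, e2, e3] at h4
  nlinarith [Nat.zero_le (s * t), Nat.zero_le (s * s), Nat.zero_le s, Nat.zero_le t]

variable {α : Type} [Fintype α] [DecidableEq α]

private theorem MinTwo_ai {α : Type} (x : Perm α) (y : α) : x (x⁻¹ y) = y :=
  x.apply_symm_apply y

private theorem MinTwo_ia {α : Type} (x : Perm α) (y : α) : x⁻¹ (x y) = y :=
  x.symm_apply_apply y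

private theorem MinTwo_inter (γ x : Perm α) : (γ.support ∩ (x * γ * x⁻¹).support).card ≤
    (γ.support.filter fun d => x d ∈ γ.support).card := by
  refine (Finset.card_le_card (t := (γ.support.filter fun d => x d ∈ γ.support).image x)
    ?_).trans Finset.card_image_le
  intro y hy
  rw [Finset.mem_inter] at hy
  obtain ⟨hy1, hy2⟩ := hy
  rw [Finset.mem_image]
  refine ⟨x⁻¹ y, ?_, MinTwo_ai x y⟩
  rw [Finset.mem_filter, MinTwo_ai]
  refine ⟨?_, hy1⟩
  rw [Perm.mem_support] at hy2 ⊢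
  intro h
  apply hy2
  rw [Perm.mul_apply, Perm.mul_apply, h, MinTwo_ai]

private theorem MinTwo_sq (X : ℕ) : X + X * (X - 1) = X ^ 2 := by
  cases X with
  | zero => rfl
  | succ k =>
    rw [Nat.add_sub_cancel]
    ring

private theorem MinTwo_point (G : Subgroup (Perm α)) {γ : Perm α} (hγ : γ ∈ G)
    (hmin : ∀ g ∈ G, g ≠ 1 → γ.support.card ≤ g.support.card) {x : Perm α} (hx : x ∈ G) :
    γ.support.card * (γ.support.filter fun d => x d ∈ γ.support ∧ x (γ d) ∉ γ.support).card ≤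
      3 * ((γ.support.filter fun d => x d ∈ γ.support).card +
        (γ.support.filter fun d => x d ∈ γ.support).card *
          ((γ.support.filter fun d => x d ∈ γ.support).card - 1)) := by
  rw [MinTwo_sq]
  have hle : (γ.support.filter fun d => x d ∈ γ.support ∧ x (γ d) ∉ γ.support).card ≤
      (γ.support.filter fun d => x d ∈ γ.support).card := by
    refine Finset.card_le_card (fun d hd => ?_)
    rw [Finset.mem_filter] at hd ⊢
    exact ⟨hd.1, hd.2.1⟩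
  rcases Nat.eq_zero_or_pos
    (γ.support.filter fun d => x d ∈ γ.support ∧ x (γ d) ∉ γ.support).card with h0 | h0
  · rw [h0, mul_zero]
    exact Nat.zero_le _
  · obtain ⟨d, hd⟩ := Finset.card_pos.1 h0
    rw [Finset.mem_filter] at hd
    have hne : γ * (x * γ * x⁻¹) * γ⁻¹ * (x * γ * x⁻¹)⁻¹ ≠ 1 := by
      refine commutator_ne_one γ (x * γ * x⁻¹) (p := x d) hd.2.1 ?_
      rw [Perm.mul_apply, Perm.mul_apply, MinTwo_ia]
      exact hd.2.2
    have hh : x * γ * x⁻¹ ∈ G := G.mul_mem (G.mul_mem hx hγ) (G.inv_mem hx)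
    have hc : γ * (x * γ * x⁻¹) * γ⁻¹ * (x * γ * x⁻¹)⁻¹ ∈ G :=
      G.mul_mem (G.mul_mem (G.mul_mem hγ hh) (G.inv_mem hγ)) (G.inv_mem hh)
    have h1 : γ.support.card ≤ 3 * (γ.support.filter fun d => x d ∈ γ.support).card :=
      ((hmin _ hc hne).trans (commutator_supp γ (x * γ * x⁻¹))).trans
        (Nat.mul_le_mul_left 3 (MinTwo_inter γ x))
    calc γ.support.card *
          (γ.support.filter fun d => x d ∈ γ.support ∧ x (γ d) ∉ γ.support).card
        ≤ (3 * (γ.support.filter fun d => x d ∈ γ.support).card) *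
          (γ.support.filter fun d => x d ∈ γ.support).card := Nat.mul_le_mul h1 hle
      _ = 3 * (γ.support.filter fun d => x d ∈ γ.support).card ^ 2 := by ring

private theorem MinTwo_main (G : Subgroup (Perm α)) (hG : Two G)
    (hA : ¬ alternatingGroup α ≤ G) (hn : 50 ≤ Fintype.card α) {γ : Perm α} (hγ : γ ∈ G)
    (h1 : γ ≠ 1) (hmin : ∀ g ∈ G, g ≠ 1 → γ.support.card ≤ g.support.card) :
    Fintype.card α < 8 * γ.support.card := by
  have : Fintype G := Fintype.ofFinite G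
  by_contra hlt
  have hlt' : 8 * γ.support.card ≤ Fintype.card α := not_lt.1 hlt
  have h2 := min_one G hG hA hγ h1
  have h8 : 8 ≤ γ.support.card := by
    by_contra h
    have h3 : γ.support.card - 1 ≤ 6 := by omega
    have h4 : (γ.support.card - 1) ^ 2 ≤ 6 ^ 2 := Nat.pow_le_pow_left h3 2
    omega
  refine MinTwo_arith (g := Nat.card G) Nat.card_pos h8 hlt' (sum_inter G hG γ.support (by omega))
    (sum_inter_two G hG γ.support)
    (sum_out G hG γ.support γ (fun d hd => Perm.mem_support.1 hd)) ?_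
  rw [Finset.mul_sum, ← Finset.sum_add_distrib, Finset.mul_sum]
  exact Finset.sum_le_sum (fun x _ => MinTwo_point G hγ hmin x.2)

theorem min_two {α : Type} [Fintype α] [DecidableEq α] (G : Subgroup (Perm α)) (hG : Two G)
    (hA : ¬ alternatingGroup α ≤ G) (hn : 50 ≤ Fintype.card α) {g : Perm α} (hg : g ∈ G)
    (h1 : g ≠ 1) : Fintype.card α < 8 * g.support.card := by
  have hex : ∃ m : ℕ, ∃ γ ∈ G, γ ≠ 1 ∧ γ.support.card = m := ⟨_, g, hg, h1, rfl⟩
  classical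
  obtain ⟨γ, hγ, hγ1, hm⟩ := Nat.find_spec hex
  have hmin : ∀ g' ∈ G, g' ≠ 1 → γ.support.card ≤ g'.support.card := by
    intro g' hg' h'
    rw [hm]
    exact Nat.find_min' hex ⟨g', hg', h', rfl⟩
  exact lt_of_lt_of_le (MinTwo_main G hG hA hn hγ hγ1 hmin)
    (Nat.mul_le_mul_left 8 (hmin g hg h1))

end Pool.Agent.Lib.TGX
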