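/-
TGX B.Prime (paper 2.5; idea of Babai and Seress). If all even permutations of `Δ` are induced by
elements of `G` and `P` is a set of odd primes with sum at most `|Δ|`, then some `1 ≠ g ∈ G` has
`|P| |supp g| ≤ n lg n`.
PROOF. Let `σ ∈ Perm Δ` be a product of disjoint cycles of lengths `p`, `p ∈ P` (partition: choose
disjoint subsets `C_p` of `Δ` with `|C_p| = p` and a `p`-cycle on each; `Equiv.Perm.exists_with_cycleType_iff`
gives a permutation with a prescribed cycle type `P.val`); it is even because every `p` is odd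
(`Equiv.Perm.mem_alternatingGroup`, `sign_of_cycleType`). Let `h ∈ G` induce `σ`. For `x : α` let
`c(x)` = length of the `h`-cycle of `x` = smallest period (`Function.minimalPeriod h x`), between 1
and `n`. If `k` different primes divide `c(x)` then `2^k ≤ c(x) ≤ n`, so `k ≤ lg n`. So
`∑_{p ∈ P} #{x : p ∣ c(x)} ≤ n lg n` and some `p ∈ P` has `|P| #{x : p ∣ c(x)} ≤ n lg n`. Let
`orderOf h = p^v m` with `p ∤ m`, `g = h^m`. If `g x ≠ x` then `c(x) ∤ m`; `c(x) ∣ p^v m`, so
`p ∣ c(x)` (else `c(x)` is coprime to `p^v` and divides `m`). So `supp g ⊆ {x : p ∣ c(x)}`. And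
`g ≠ 1`: for `z ∈ C_p` (a point of `Δ` with `σ`-period `p`) `g z = σ^m z ≠ z` because `p ∤ m`.
-/
import Pool.Agent.Lib.TGX.Defs

namespace Pool.Agent.Lib.TGX

open Equiv

private theorem even_sum_card (P : Finset ℕ) (hP : ∀ p ∈ P, p.Prime ∧ p ≠ 2) :
    Even (P.val.sum + P.val.card) := by
  have h : P.val.sum + P.val.card = ∑ p ∈ P, (p + 1) := by
    have h0 : P.val.sum = ∑ p ∈ P, p := Finset.sum_val P
    rw [Finset.sum_add_distrib, h0, Finset.sum_const, smul_eq_mul, mul_one]
    rfl
  rw [h]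
  refine Finset.even_sum _ fun p hp => ?_
  have := (hP p hp).1.odd_of_ne_two (hP p hp).2
  exact this.add_one

private theorem pos_period {α : Type} [Fintype α] (h : Perm α) (x : α) :
    0 < Function.minimalPeriod h x := by
  refine Function.minimalPeriod_pos_of_mem_periodicPts ?_
  refine ⟨orderOf h, orderOf_pos h, ?_⟩
  change (⇑h)^[orderOf h] x = x
  rw [Equiv.Perm.iterate_eq_pow, pow_orderOf_eq_one]
  rfl

private theorem few_primes {α : Type} [Fintype α] (h : Perm α) (x : α)
    (P : Finset ℕ) (hP : ∀ p ∈ P, p.Prime) :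
    (P.filter fun p => p ∣ Function.minimalPeriod h x).card ≤ lg (Fintype.card α) := by
  set S := P.filter fun p => p ∣ Function.minimalPeriod h x with hS
  have h1 : ∏ p ∈ S, p ∣ Function.minimalPeriod h x := by
    refine Finset.prod_primes_dvd _ (fun p hp => ?_) fun p hp => ?_
    · exact (hP p (Finset.mem_filter.1 hp).1).prime
    · exact (Finset.mem_filter.1 hp).2
  have h2 : ∏ p ∈ S, p ≤ Fintype.card α :=
    (Nat.le_of_dvd (pos_period h x) h1).trans Function.minimalPeriod_le_card
  have h3 : 2 ^ S.card ≤ ∏ p ∈ S, p := by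
    rw [← Finset.prod_const]
    exact Finset.prod_le_prod' fun p hp => (hP p (Finset.mem_filter.1 hp).1).two_le
  have h4 : 2 ^ S.card < 2 ^ lg (Fintype.card α) := (h3.trans h2).trans_lt (lt_lg _)
  exact ((Nat.pow_lt_pow_iff_right (by norm_num)).1 h4).le

private theorem sum_le {α : Type} [Fintype α] (h : Perm α) (P : Finset ℕ)
    (hP : ∀ p ∈ P, p.Prime) :
    ∑ p ∈ P, (Finset.univ.filter fun x : α => p ∣ Function.minimalPeriod h x).card ≤
      Fintype.card α * lg (Fintype.card α) := by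
  have h1 : ∑ p ∈ P, (Finset.univ.filter fun x : α => p ∣ Function.minimalPeriod h x).card
      = ∑ x : α, (P.filter fun p => p ∣ Function.minimalPeriod h x).card := by
    simp only [Finset.card_filter]
    exact Finset.sum_comm
  rw [h1]
  refine (Finset.sum_le_card_nsmul _ _ _ fun x _ => few_primes h x P hP).trans ?_
  simp [Finset.card_univ]

private theorem exists_p {α : Type} [Fintype α] (h : Perm α) (P : Finset ℕ)
    (hP : ∀ p ∈ P, p.Prime) (hne : P.Nonempty) :
    ∃ p ∈ P, P.card * (Finset.univ.filter fun x : α => p ∣ Function.minimalPeriod h x).card ≤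
      Fintype.card α * lg (Fintype.card α) := by
  by_contra hcon
  push Not at hcon
  have h1 := sum_le h P hP
  have h2 : ∑ _p ∈ P, Fintype.card α * lg (Fintype.card α) <
      ∑ p ∈ P, P.card * (Finset.univ.filter fun x : α => p ∣ Function.minimalPeriod h x).card :=
    Finset.sum_lt_sum_of_nonempty hne hcon
  rw [Finset.sum_const, smul_eq_mul, ← Finset.mul_sum] at h2
  have h3 := lt_of_mul_lt_mul_left h2 (Nat.zero_le _)
  omega

private theorem supp_sub {α : Type} [Fintype α] [DecidableEq α] (h : Perm α) (p v m : ℕ)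
    (hp : p.Prime) (ho : orderOf h = p ^ v * m) :
    (h ^ m).support.card ≤
      (Finset.univ.filter fun x : α => p ∣ Function.minimalPeriod h x).card := by
  refine Finset.card_le_card fun x hx => ?_
  rw [Finset.mem_filter]
  refine ⟨Finset.mem_univ _, ?_⟩
  by_contra hnd
  rw [Equiv.Perm.mem_support] at hx
  apply hx
  have h1 : Function.minimalPeriod h x ∣ p ^ v * m := by
    rw [← ho]
    apply Function.IsPeriodicPt.minimalPeriod_dvd
    change (⇑h)^[orderOf h] x = x
    rw [Equiv.Perm.iterate_eq_pow, pow_orderOf_eq_one]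
    rfl
  have h2 : Nat.Coprime (Function.minimalPeriod h x) (p ^ v) :=
    Nat.Coprime.pow_right _ ((Nat.Prime.coprime_iff_not_dvd hp).2 hnd).symm
  have h3 : Function.minimalPeriod h x ∣ m := h2.dvd_of_dvd_mul_left h1
  have h4 : Function.IsPeriodicPt h m x := Function.isPeriodicPt_iff_minimalPeriod_dvd.2 h3
  have h5 : (⇑h)^[m] x = x := h4
  rwa [Equiv.Perm.iterate_eq_pow] at h5

private theorem pow_induced {α : Type} (Δ : Finset α) (h : Perm α) (σ : Perm Δ)
    (hh : ∀ z : Δ, h z = σ z) (m : ℕ) (z : Δ) : (h ^ m) z = ((σ ^ m) z : Δ) := by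
  induction m generalizing z with
  | zero => simp
  | succ m ih =>
    rw [pow_succ, pow_succ, Perm.mul_apply, Perm.mul_apply, hh z, ih]


theorem prime_cycles {α : Type} [Fintype α] [DecidableEq α] (G : Subgroup (Perm α))
    (Δ : Finset α)
    (hΔ : ∀ σ : Perm Δ, σ ∈ alternatingGroup Δ → ∃ g ∈ G, ∀ z : Δ, g z = σ z)
    (P : Finset ℕ) (hP : ∀ p ∈ P, p.Prime ∧ p ≠ 2) (hsum : ∑ p ∈ P, p ≤ Δ.card)
    (hne : P.Nonempty) :
    ∃ g ∈ G, g ≠ 1 ∧ P.card * g.support.card ≤ Fintype.card α * lg (Fintype.card α) := by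
  classical
  have hP' : ∀ p ∈ P, p.Prime := fun p hp => (hP p hp).1
  obtain ⟨σ, hσ⟩ : ∃ σ : Perm Δ, σ.cycleType = P.val := by
    rw [Equiv.Perm.exists_with_cycleType_iff]
    refine ⟨?_, fun a ha => (hP' a ha).two_le⟩
    have : P.val.sum = ∑ p ∈ P, p := Finset.sum_val P
    rw [this, Fintype.card_coe]
    exact hsum
  have hσe : σ ∈ alternatingGroup Δ := by
    rw [Equiv.Perm.mem_alternatingGroup, Equiv.Perm.sign_of_cycleType, hσ]
    exact (even_sum_card P hP).neg_one_pow
  obtain ⟨h, hhG, hh⟩ := hΔ σ hσe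
  obtain ⟨p, hpP, hpc⟩ := exists_p h P hP' hne
  obtain ⟨v, m, hpm, ho⟩ := Nat.exists_eq_pow_mul_and_not_dvd (orderOf_pos h).ne' p
    (hP' p hpP).ne_one
  refine ⟨h ^ m, G.pow_mem hhG m, ?_, ?_⟩
  · intro h1
    apply hpm
    have h2 : σ ^ m = 1 := by
      ext z
      rw [← pow_induced Δ h σ hh m z, h1]
      rfl
    have h3 : p ∣ orderOf σ := by
      apply Equiv.Perm.dvd_of_mem_cycleType
      rw [hσ]
      exact hpP
    exact h3.trans (orderOf_dvd_of_pow_eq_one h2)
  · exact (Nat.mul_le_mul_left _ (supp_sub h p v m (hP' p hpP) ho)).trans hpc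

end Pool.Agent.Lib.TGX
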