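/-
TGX B.Primes. There are `s` odd primes with sum at most `5 (s+1)³`.
PROOF. `P = {nth Prime m : 1 ≤ m ≤ s}` and `nth Prime m ≤ 4 m² + 1` for `m ≥ 1`: lemma `nth_le` in
Pool/Agent/Lib/LPF680/Own.lean (helper12, line 254; import that file or copy the proof, which uses
only Mathlib's Chebyshev bounds). `∑_{m=1}^s (4 m² + 1) ≤ 4 s³ + s ≤ 5 (s+1)³`. `nth Prime 0 = 2`, so
the others are odd; `Nat.nth_strictMono`.
-/
import Pool.Agent.Lib.LPF680.Own
import Pool.Agent.Lib.TGX.Defs

namespace Pool.Agent.Lib.TGX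

theorem exists_primes (s : ℕ) : ∃ P : Finset ℕ, P.card = s ∧ (∀ p ∈ P, p.Prime ∧ p ≠ 2) ∧
    ∑ p ∈ P, p ≤ 5 * (s + 1) ^ 3 := by
  have hmono : StrictMono (Nat.nth Nat.Prime) := Nat.nth_strictMono Nat.infinite_setOf_prime
  refine ⟨(Finset.range s).image (fun m => Nat.nth Nat.Prime (m + 1)), ?_, ?_, ?_⟩
  · rw [Finset.card_image_of_injective _ (fun a b h => by
      have := hmono.injective h
      omega), Finset.card_range]
  · intro p hp
    obtain ⟨m, _, rfl⟩ := Finset.mem_image.1 hp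
    refine ⟨Nat.prime_nth_prime _, ?_⟩
    have h := hmono (Nat.succ_pos m)
    rw [Nat.nth_prime_zero_eq_two] at h
    exact h.ne'
  · rw [Finset.sum_image (fun a _ b _ h => by
      have := hmono.injective h
      omega)]
    have h1 : ∑ m ∈ Finset.range s, Nat.nth Nat.Prime (m + 1) ≤
        ∑ _m ∈ Finset.range s, (4 * s ^ 2 + 1) := by
      apply Finset.sum_le_sum
      intro m hm
      have hm' := Finset.mem_range.1 hm
      refine (LPF680.nth_le (m + 1) (Nat.succ_pos m)).trans ?_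
      have : (m + 1) ^ 2 ≤ s ^ 2 := Nat.pow_le_pow_left (by omega) 2
      omega
    refine h1.trans ?_
    rw [Finset.sum_const, Finset.card_range, smul_eq_mul]
    nlinarith [Nat.zero_le s, Nat.zero_le (s ^ 2), Nat.zero_le (s ^ 3)]

end Pool.Agent.Lib.TGX
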