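/-
TGX B.Trans (paper 2.6). `G` doubly transitive, `Δ` a set whose pointwise stabiliser has all orbits
of size at most `(1 - 1/q) n`: then `|G| ≤ n ^ (|Δ| 2 q lg n)`.
PROOF. Tests: `ι = G`, `sep h x y :⇔ h⁻¹ y ∉ sorb G Δ (h⁻¹ x)`. The relation `y ∈ sorb G Δ x` is an
equivalence relation. For `x ≠ y` the number of `h ∈ G` not separating `x, y` is, by double
transitivity (`count_two`: for each ordered pair `(u,v)`, `u ≠ v`, exactly `|G|/(n(n-1))` elements `h`
have `h u = x`, `h v = y`), `|G| / (n (n-1))` times the number of ordered pairs `u ≠ v` with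
`v ∈ sorb G Δ u`, at most `n ((q-1) n / q - 1)`; and `((q-1) n / q - 1) / (n - 1) ≤ (q-1)/q`. So
at least `|G| / q` elements separate. `exists_sep`: a set `s` of at most `2 q lg n` elements of `G`
separating all pairs. Let `B = ⋃_{h ∈ s} h(Δ)`, `|B| ≤ |Δ| 2 q lg n`. If `g ∈ G` fixes `B` pointwise
and `g x ≠ x`, take `h ∈ s` separating `x, g x`; `h⁻¹ g h ∈ G` fixes `Δ` pointwise and maps `h⁻¹ x` to
`h⁻¹ (g x)`, so `h⁻¹ (g x) ∈ sorb G Δ (h⁻¹ x)`: contradiction. So `g = 1`; `card_le_of_base` and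
monotonicity in the exponent (`n ≥ 1`; `n = 0` trivial).
-/
import Pool.Agent.Lib.TGX.B.DefsB
import Pool.Agent.Lib.TGX.B.Greedy
import Pool.Agent.Lib.TGX.B.BaseCard
import Pool.Agent.Lib.TGX.B.CountT

namespace Pool.Agent.Lib.TGX

open Equiv

private theorem tr_ncard {α : Type} [Fintype α] [DecidableEq α] (G : Subgroup (Perm α))
    (Δ : Finset α) (x : α) (S : Finset α) (hS : ∀ y, y ∈ S ↔ y ≠ x ∧ y ∈ sorb G Δ x) :
    (sorb G Δ x).ncard = S.card + 1 := by
  have hx : x ∈ sorb G Δ x := ⟨1, G.one_mem, fun _ _ => rfl, rfl⟩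
  have e : sorb G Δ x = insert x (S : Set α) := by
    ext y
    simp only [Set.mem_insert_iff, Finset.mem_coe, hS]
    constructor
    · intro hy
      by_cases h : y = x
      · exact Or.inl h
      · exact Or.inr ⟨h, hy⟩
    · rintro (rfl | h)
      · exact hx
      · exact h.2
  rw [e, Set.ncard_insert_of_notMem (by simp [hS]), Set.ncard_coe_finset]

private theorem tr_count {α : Type} [Fintype α] [DecidableEq α] (G : Subgroup (Perm α))
    [Fintype G] (hG : Two G) (Δ : Finset α) (q : ℕ) (hq : 1 ≤ q)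
    (h : ∀ x : α, q * (sorb G Δ x).ncard ≤ (q - 1) * Fintype.card α) (x y : α) (hxy : x ≠ y) :
    Fintype.card G ≤ q * Nat.card {g : G // ((g⁻¹ : G) : Perm α) y ∉
      sorb G Δ (((g⁻¹ : G) : Perm α) x)} := by
  classical
  set n := Fintype.card α with hn
  have hn2 : 2 ≤ n := by
    rw [hn]
    exact Fintype.one_lt_card_iff.2 ⟨x, y, hxy⟩
  let S : α → Finset α := fun u => Finset.univ.filter (fun v => v ≠ u ∧ v ∈ sorb G Δ u)
  have hS : ∀ u v, v ∈ S u ↔ v ≠ u ∧ v ∈ sorb G Δ u := by
    intro u v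
    simp [S]
  have hScard : ∀ u, q * (S u).card ≤ (q - 1) * (n - 1) := by
    intro u
    have h1 := h u
    rw [tr_ncard G Δ u (S u) (hS u)] at h1
    obtain ⟨q', rfl⟩ : ∃ q', q = q' + 1 := ⟨q - 1, by omega⟩
    obtain ⟨n', hn'⟩ : ∃ n', n = n' + 1 := ⟨n - 1, by omega⟩
    rw [hn'] at h1 ⊢
    simp only [Nat.add_sub_cancel] at h1 ⊢
    nlinarith
  let NS : Finset G := Finset.univ.filter
    (fun g : G => ((g⁻¹ : G) : Perm α) y ∈ sorb G Δ (((g⁻¹ : G) : Perm α) x))
  let f : G → (Σ _ : α, α) := fun g => ⟨((g⁻¹ : G) : Perm α) x, ((g⁻¹ : G) : Perm α) y⟩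
  let t : Finset (Σ _ : α, α) := Finset.univ.sigma S
  have hfib := Finset.card_eq_sum_card_fiberwise (f := f) (s := NS) (t := t) (by
    intro g hg
    simp only [Finset.coe_filter, Finset.mem_univ, true_and, Set.mem_ofPred_eq, NS] at hg
    simp only [t, f, Finset.coe_sigma, Set.mem_sigma_iff, Finset.mem_coe, Finset.mem_univ,
      true_and]
    rw [hS]
    exact ⟨fun e => hxy ((((g⁻¹ : G) : Perm α).injective e).symm), hg⟩)
  have hNS : NS.card * (n * (n - 1)) = t.card * Fintype.card G := by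
    rw [hfib, Finset.sum_mul, Finset.card_eq_sum_ones, Finset.sum_mul]
    refine Finset.sum_congr rfl ?_
    rintro ⟨u, v⟩ huv
    simp only [t, Finset.mem_sigma, Finset.mem_univ, true_and, hS] at huv
    have h2 := count_two G hG (u := u) (v := v) (u' := x) (v' := y) (fun e => huv.1 e.symm) hxy
    rw [one_mul, ← Nat.card_eq_fintype_card (α := G), ← h2]
    congr 1
    rw [Nat.card_eq_fintype_card, Fintype.card_subtype]
    congr 1
    ext g
    simp only [Finset.mem_filter, Finset.mem_univ, true_and, NS, f, Sigma.mk.injEq, heq_eq_eq]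
    constructor
    · rintro ⟨_, h1, h2⟩
      constructor
      · rw [← h1]
        exact (g : Perm α).apply_symm_apply x
      · rw [← h2]
        exact (g : Perm α).apply_symm_apply y
    · rintro ⟨h1, h2⟩
      have e1 : ((g⁻¹ : G) : Perm α) x = u := by
        rw [← h1]
        exact (g : Perm α).symm_apply_apply u
      have e2 : ((g⁻¹ : G) : Perm α) y = v := by
        rw [← h2]
        exact (g : Perm α).symm_apply_apply v
      rw [e1, e2]
      exact ⟨huv.2, rfl, rfl⟩
  have htcard : q * t.card ≤ n * ((q - 1) * (n - 1)) := by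
    rw [Finset.card_sigma, Finset.mul_sum]
    calc ∑ u, q * (S u).card ≤ ∑ _u : α, (q - 1) * (n - 1) :=
          Finset.sum_le_sum fun u _ => hScard u
      _ = n * ((q - 1) * (n - 1)) := by
          rw [Finset.sum_const, Finset.card_univ, smul_eq_mul]
  have hqN : q * NS.card ≤ (q - 1) * Fintype.card G := by
    have hpos : 0 < n * (n - 1) := Nat.mul_pos (by omega) (by omega)
    refine Nat.le_of_mul_le_mul_right ?_ hpos
    calc q * NS.card * (n * (n - 1)) = q * (NS.card * (n * (n - 1))) := by ring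
      _ = q * t.card * Fintype.card G := by rw [hNS]; ring
      _ ≤ n * ((q - 1) * (n - 1)) * Fintype.card G := Nat.mul_le_mul_right _ htcard
      _ = (q - 1) * Fintype.card G * (n * (n - 1)) := by ring
  have hM : Nat.card {g : G // ((g⁻¹ : G) : Perm α) y ∉
      sorb G Δ (((g⁻¹ : G) : Perm α) x)} + NS.card = Fintype.card G := by
    rw [Nat.card_eq_fintype_card, Fintype.card_subtype, add_comm, ← Finset.card_univ]
    exact Finset.card_filter_add_card_filter_not _
  obtain ⟨q', rfl⟩ : ∃ q', q = q' + 1 := ⟨q - 1, by omega⟩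
  simp only [Nat.add_sub_cancel] at hqN
  rw [← hM] at hqN ⊢
  nlinarith

theorem base_of_small {α : Type} [Fintype α] [DecidableEq α] (G : Subgroup (Perm α))
    (hG : Two G) (Δ : Finset α) (q : ℕ) (hq : 1 ≤ q)
    (h : ∀ x : α, q * (sorb G Δ x).ncard ≤ (q - 1) * Fintype.card α) :
    Nat.card G ≤ Fintype.card α ^ (Δ.card * (2 * q * lg (Fintype.card α))) := by
  classical
  let _ : Fintype G := Fintype.ofFinite G
  rcases isEmpty_or_nonempty α with hα | hα
  · have h1 : Nat.card G ≤ 1 := by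
      rw [Nat.card_eq_fintype_card]
      refine Fintype.card_le_one_iff_subsingleton.2 ⟨fun a b => ?_⟩
      apply Subtype.ext
      ext z
      exact hα.elim z
    have h2 : Δ.card = 0 := by
      rw [Finset.card_eq_zero]
      exact Finset.eq_empty_of_isEmpty Δ
    rw [h2, zero_mul, pow_zero]
    exact h1
  · obtain ⟨s, hs, hsep⟩ := exists_sep (α := α) (ι := G)
      (fun g x y => ((g⁻¹ : G) : Perm α) y ∉ sorb G Δ (((g⁻¹ : G) : Perm α) x)) q hq
      (fun x y hxy => tr_count G hG Δ q hq h x y hxy)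
    let B : Finset α := s.biUnion (fun g => Δ.image (g : Perm α))
    have hB : B.card ≤ Δ.card * (2 * q * lg (Fintype.card α)) := by
      calc B.card ≤ ∑ g ∈ s, (Δ.image (g : Perm α)).card := Finset.card_biUnion_le
        _ ≤ ∑ _g ∈ s, Δ.card := Finset.sum_le_sum fun g _ => Finset.card_image_le
        _ = s.card * Δ.card := by rw [Finset.sum_const, smul_eq_mul]
        _ ≤ (2 * q * lg (Fintype.card α)) * Δ.card := Nat.mul_le_mul_right _ hs
        _ = Δ.card * (2 * q * lg (Fintype.card α)) := mul_comm _ _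
    refine (card_le_of_base G B ?_).trans (Nat.pow_le_pow_right Fintype.card_pos hB)
    intro g hg hfix
    by_contra hne
    obtain ⟨x, hx⟩ : ∃ x, g x ≠ x := by
      by_contra hcon
      push Not at hcon
      exact hne (Perm.ext hcon)
    obtain ⟨k, hk, hksep⟩ := hsep x (g x) hx.symm
    apply hksep
    refine ⟨(k : Perm α)⁻¹ * g * (k : Perm α), G.mul_mem (G.mul_mem (G.inv_mem k.2) hg) k.2,
      ?_, ?_⟩
    · intro z hz
      have hz2 : (k : Perm α) z ∈ B :=
        Finset.mem_biUnion.2 ⟨k, hk, Finset.mem_image_of_mem _ hz⟩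
      show (k : Perm α)⁻¹ (g ((k : Perm α) z)) = z
      rw [hfix _ hz2]
      exact (k : Perm α).symm_apply_apply z
    · show (k : Perm α)⁻¹ (g ((k : Perm α) ((k : Perm α)⁻¹ x))) = (k : Perm α)⁻¹ (g x)
      have e : (k : Perm α) ((k : Perm α)⁻¹ x) = x := (k : Perm α).apply_symm_apply x
      rw [e]

end Pool.Agent.Lib.TGX
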