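/-
TGX B.TwoB. Order of doubly transitive groups not containing the alternating group (Pyber).
PROOF. For `n < 50`: `|G| ≤ n! ≤ 2^(n lg n)`, absorbed by the constant `C` (`lg n ≥ 1`). Let
`n ≥ 50`, `l = lg n`, `s = 8 l + 1`, `P` from `exists_primes s`, `t = 5 (s+1)³`. If every set of less than
`t` points has a giant orbit as in `giant`, then `giant` and `prime_cycles` (`∑ p ≤ t = |Δ|`) give
`1 ≠ g ∈ G` with `(8 l + 1) |supp g| ≤ n l`, so `8 |supp g| ≤ n` (as `|supp g| > 0`...: `8 l |supp g| ≤ n l`),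
contradicting `min_two`. So there is `Δ`, `|Δ| < t`, with
`2 t |sorb G Δ x| ≤ (2t - 1) n` for all `x`: `base_of_small` with `q = 2 t` gives
`|G| ≤ n^(t * 4 t l) ≤ 2^(4 t² l²)`, and `t = 5 (8 l + 2)³ ≤ 5 * (10 l)³ = 5000 l³`, so
`|G| ≤ 2^(10^8 l^8)`.
-/
import Pool.Agent.Lib.TGX.B.MinTwo
import Pool.Agent.Lib.TGX.B.Giant
import Pool.Agent.Lib.TGX.B.Prime
import Pool.Agent.Lib.TGX.B.Primes
import Pool.Agent.Lib.TGX.B.Trans

namespace Pool.Agent.Lib.TGX

open Equiv

theorem two_bound : ∃ C : ℕ, ∀ (n : ℕ) (G : Subgroup (Perm (Fin n))), Two G →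
    ¬ alternatingGroup (Fin n) ≤ G → Nat.card G ≤ 2 ^ (C * lg n ^ 8) := by
  refine ⟨10 ^ 9, fun n G hG hA => ?_⟩
  have hl : 1 ≤ lg n := lg_pos n
  have hl8 : 1 ≤ lg n ^ 8 := Nat.one_le_pow _ _ hl
  rcases Nat.lt_or_ge n 50 with hn | hn
  · have h1 : Nat.card G ≤ n.factorial := by
      have h2 : Nat.card G ≤ Nat.card (Perm (Fin n)) :=
        Nat.card_le_card_of_injective _ (Subgroup.subtype_injective G)
      rwa [Nat.card_eq_fintype_card (α := Perm (Fin n)), Fintype.card_perm, Fintype.card_fin] at h2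
    have h3 : n.factorial ≤ 50 ^ 50 :=
      (Nat.factorial_le_pow n).trans ((Nat.pow_le_pow_left hn.le n).trans
        (Nat.pow_le_pow_right (by norm_num) hn.le))
    have h4 : 50 ^ 50 ≤ 2 ^ (6 * 50) := by
      rw [pow_mul]
      exact Nat.pow_le_pow_left (by norm_num) 50
    refine h1.trans (h3.trans (h4.trans (Nat.pow_le_pow_right (by norm_num) ?_)))
    calc 6 * 50 ≤ 10 ^ 9 * 1 := by norm_num
      _ ≤ 10 ^ 9 * lg n ^ 8 := Nat.mul_le_mul_left _ hl8
  · obtain ⟨P, hPc, hP, hPs⟩ := exists_primes (8 * lg n + 1)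
    set l := lg n with hldef
    set t := 5 * (8 * l + 1 + 1) ^ 3 with ht
    have ht1 : 1 ≤ t := by
      rw [ht]
      exact Nat.mul_pos (by norm_num) (pow_pos (by omega) 3)
    have hcard : Fintype.card (Fin n) = n := Fintype.card_fin n
    by_cases H : ∀ Δ : Finset (Fin n), Δ.card < t →
      ∃ x : Fin n, (2 * t - 1) * Fintype.card (Fin n) < 2 * t * (sorb G Δ x).ncard
    · exfalso
      obtain ⟨Δ, hΔc, hΔ⟩ := giant G t ht1 (by rw [hcard]; omega) H
      obtain ⟨g, hg, hg1, hg2⟩ := prime_cycles G Δ hΔ P hP (by rw [hΔc]; exact hPs)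
        (Finset.card_pos.1 (by rw [hPc]; omega))
      have h5 := min_two G hG hA (by rw [hcard]; exact hn) hg hg1
      rw [hcard] at h5 hg2
      rw [hPc, ← hldef] at hg2
      have h6 : n * l ≤ 8 * g.support.card * l := Nat.mul_le_mul_right _ h5.le
      have h7 : (8 * l + 1) * g.support.card ≤ 8 * g.support.card * l := hg2.trans h6
      have h8 : g.support.card = 0 := by nlinarith
      omega
    · push Not at H
      obtain ⟨Δ, hΔ, hx⟩ := H
      have h5 := base_of_small G hG Δ (2 * t) (by omega) hx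
      rw [hcard, ← hldef] at h5
      have h6 : n ^ (Δ.card * (2 * (2 * t) * l)) ≤ (2 ^ l) ^ (t * (2 * (2 * t) * l)) :=
        (Nat.pow_le_pow_left (lt_lg n).le _).trans
          (Nat.pow_le_pow_right (by positivity) (Nat.mul_le_mul_right _ hΔ.le))
      refine h5.trans (h6.trans ?_)
      rw [← pow_mul]
      refine Nat.pow_le_pow_right (by norm_num) ?_
      have h7 : t ≤ 5000 * l ^ 3 := by
        have h8 : (8 * l + 1 + 1) ^ 3 ≤ (10 * l) ^ 3 := Nat.pow_le_pow_left (by omega) 3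
        calc t = 5 * (8 * l + 1 + 1) ^ 3 := ht
          _ ≤ 5 * (10 * l) ^ 3 := Nat.mul_le_mul_left _ h8
          _ = 5000 * l ^ 3 := by ring
      calc l * (t * (2 * (2 * t) * l)) = 4 * (t * t) * l ^ 2 := by ring
        _ ≤ 4 * ((5000 * l ^ 3) * (5000 * l ^ 3)) * l ^ 2 := by
            gcongr
        _ = 10 ^ 8 * l ^ 8 := by ring
        _ ≤ 10 ^ 9 * l ^ 8 := Nat.mul_le_mul_right _ (by norm_num)

end Pool.Agent.Lib.TGX
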