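/-
TGX B.Uni. Order of primitive groups that are not doubly transitive (Babai).
PROOF. `n ≥ 2` (else trivial: `|G| ≤ 1`). Let `q = 2 (sqrt n + 1)`. For `x ≠ y`, `δ = |dset G x y|`
satisfies `n ≤ 2 δ² + 1` (`dist_lower`), so `n ≤ q δ`: indeed `δ ≥ 1`, and if `q δ < n`, then
`4 (sqrt n + 1)² δ² < n²`, `(sqrt n + 1)² > n`, so `4 δ² < n`, `2 δ² + 1 ≤ n/2 + 1`..., precisely
`n ≤ 2 δ² + 1 < n/2 + 1`, so `n < 2`. Apply `exists_sep` with `ι = α`,
`sep z x y := z ∈ dset G x y`: a set `s` of at most `2 q lg n` points such that every pair `x ≠ y`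
is distinguished by some `z ∈ s`. If `g ∈ G` fixes `s` pointwise then for `x` with `g x ≠ x` some
`z ∈ s` lies in `dset G x (g x)`, but `g z = z`, `g x = g x`: contradiction. So `g = 1` and
`|G| ≤ n ^ (2 q lg n) ≤ 2 ^ (2 q (lg n)²)` (`card_le_of_base`, `lt_lg`).
-/
import Pool.Agent.Lib.TGX.B.Dist3
import Pool.Agent.Lib.TGX.B.Greedy
import Pool.Agent.Lib.TGX.B.BaseCard

namespace Pool.Agent.Lib.TGX

open Equiv

private theorem uni_arith {n r d : ℕ} (hn : 2 ≤ n) (hr : n < (r + 1) * (r + 1))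
    (hd : n ≤ 2 * d ^ 2 + 1) : n ≤ 2 * (r + 1) * d := by
  by_contra hcon
  rw [not_le] at hcon
  have h1 : (2 * (r + 1) * d) * (2 * (r + 1) * d) < n * n := Nat.mul_self_lt_mul_self hcon
  have h2 : n * (4 * d ^ 2) ≤ (r + 1) * (r + 1) * (4 * d ^ 2) :=
    Nat.mul_le_mul_right _ hr.le
  have h3 : (2 * (r + 1) * d) * (2 * (r + 1) * d) = (r + 1) * (r + 1) * (4 * d ^ 2) := by ring
  have h4 : n * (4 * d ^ 2) < n * n := by omega
  have h5 : 4 * d ^ 2 < n := Nat.lt_of_mul_lt_mul_left h4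
  omega

theorem uni_bound (n : ℕ) (G : Subgroup (Perm (Fin n))) (hG : Prim G) (h2 : ¬ Two G) :
    Nat.card G ≤ 2 ^ (4 * (Nat.sqrt n + 1) * lg n ^ 2) := by
  classical
  rcases Nat.lt_or_ge n 2 with hn | hn
  · have : Subsingleton (Fin n) := Fin.subsingleton_iff_le_one.2 (by omega)
    have h1 : Nat.card G ≤ 1 := by
      rw [Finite.card_le_one_iff_subsingleton]
      infer_instance
    exact h1.trans Nat.one_le_two_pow
  · have : Nonempty (Fin n) := ⟨⟨0, by omega⟩⟩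
    obtain ⟨s, hs, hsep⟩ := exists_sep (fun z x y : Fin n => z ∈ dset G x y)
      (2 * (Nat.sqrt n + 1)) (by omega) (fun x y hxy => by
        have h3 := dist_lower G hG h2 hxy
        rw [Nat.card_eq_fintype_card, Fintype.card_fin] at h3
        have h4 := uni_arith hn (Nat.lt_succ_sqrt n) h3
        rw [Fintype.card_fin]
        exact h4)
    rw [Fintype.card_fin] at hs
    have hb : ∀ g ∈ G, (∀ x ∈ s, g x = x) → g = 1 := by
      intro g hg hfix
      apply Equiv.ext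
      intro x
      by_contra hne
      obtain ⟨z, hz, hzd⟩ := hsep x (g x) (fun h => hne h.symm)
      exact hzd ⟨g, hg, hfix z hz, rfl⟩
    have hc := card_le_of_base G s hb
    rw [Fintype.card_fin] at hc
    calc Nat.card G ≤ n ^ s.card := hc
      _ ≤ n ^ (2 * (2 * (Nat.sqrt n + 1)) * lg n) := Nat.pow_le_pow_right (by omega) hs
      _ ≤ (2 ^ lg n) ^ (2 * (2 * (Nat.sqrt n + 1)) * lg n) :=
        Nat.pow_le_pow_left (lt_lg n).le _
      _ = 2 ^ (4 * (Nat.sqrt n + 1) * lg n ^ 2) := by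
        rw [← pow_mul]
        congr 1
        ring

end Pool.Agent.Lib.TGX
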