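/-
TGX B.Prim. Assembly: primitive groups not containing the alternating group have order at most
`2 ^ (C (sqrt n + 1) (lg n)^8)`.
PROOF. `uni_bound` and `two_bound`; `C = max 4 C'`; `lg n ≥ 1` (`lg_pos`), `sqrt n + 1 ≥ 1`.
-/
import Pool.Agent.Lib.TGX.B.Uni
import Pool.Agent.Lib.TGX.B.TwoB

namespace Pool.Agent.Lib.TGX

open Equiv

theorem exists_primBound : ∃ C : ℕ, PrimBound C := by
  obtain ⟨C', hC'⟩ := two_bound
  refine ⟨max 4 C', fun n G hG => ?_⟩
  by_cases ha : alternatingGroup (Fin n) ≤ G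
  · exact Or.inl ha
  refine Or.inr ?_
  by_cases h2 : Two G
  · refine (hC' n G h2 ha).trans (Nat.pow_le_pow_right (by norm_num) ?_)
    unfold bp
    refine Nat.mul_le_mul_right _ ?_
    calc C' ≤ max 4 C' := le_max_right _ _
      _ = max 4 C' * 1 := (mul_one _).symm
      _ ≤ max 4 C' * (Nat.sqrt n + 1) := Nat.mul_le_mul_left _ (Nat.succ_le_succ (Nat.zero_le _))
  · refine (uni_bound n G hG h2).trans (Nat.pow_le_pow_right (by norm_num) ?_)
    unfold bp
    exact Nat.mul_le_mul (Nat.mul_le_mul_right _ (le_max_left _ _))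
      (Nat.pow_le_pow_right (lg_pos n) (by norm_num))

end Pool.Agent.Lib.TGX
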